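import Mathlib

/-!
Hadamard's inequality and divisibility of determinants of sign matrices.
-/

namespace Pool.Agent.Helper42.Asum

open Finset

theorem hadamard_fin (m : ℕ) (A : Matrix (Fin m) (Fin m) ℝ) (h : ∀ i j, |A i j| ≤ 1) :
    A.det ^ 2 ≤ (m : ℝ) ^ m := by
  let E := EuclideanSpace ℝ (Fin m)
  have : Fact (Module.finrank ℝ E = m) := ⟨by simp [E]⟩
  let b : OrthonormalBasis (Fin m) ℝ E := EuclideanSpace.basisFun (Fin m) ℝ
  let o : Orientation ℝ E (Fin m) := b.toBasis.orientation
  let v : Fin m → E := fun i => WithLp.toLp 2 (A i)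
  have h1 : |o.volumeForm v| ≤ ∏ i, ‖v i‖ := o.abs_volumeForm_apply_le v
  have h2 : o.volumeForm v = b.toBasis.det v := by
    rw [o.volumeForm_robust b rfl]
  have h3 : b.toBasis.det v = A.det := by
    rw [Module.Basis.det_apply, ← Matrix.det_transpose]
    congr 1
  rw [h2, h3] at h1
  have h4 : ∀ i, ‖v i‖ ^ 2 ≤ m := by
    intro i
    rw [EuclideanSpace.norm_sq_eq]
    calc ∑ j, ‖v i j‖ ^ 2 ≤ ∑ j : Fin m, (1 : ℝ) := by
          refine Finset.sum_le_sum (fun j _ => ?_)
          have : |A i j| ≤ 1 := h i j
          simp only [v, Real.norm_eq_abs]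
          have h5 : |A i j| ^ 2 ≤ 1 ^ 2 := by gcongr
          simpa using h5
      _ = m := by simp
  calc A.det ^ 2 = |A.det| ^ 2 := (sq_abs _).symm
    _ ≤ (∏ i, ‖v i‖) ^ 2 := by gcongr
    _ = ∏ i, ‖v i‖ ^ 2 := (Finset.prod_pow _ _ _).symm
    _ ≤ ∏ i : Fin m, (m : ℝ) := Finset.prod_le_prod (fun i _ => by positivity) (fun i _ => h4 i)
    _ = (m : ℝ) ^ m := by simp

theorem hadamard {s : Type*} [Fintype s] [DecidableEq s] (A : Matrix s s ℝ) (h : ∀ i j, |A i j| ≤ 1) :
    A.det ^ 2 ≤ (Fintype.card s : ℝ) ^ (Fintype.card s) := by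
  let e : s ≃ Fin (Fintype.card s) := Fintype.equivFin s
  have h1 := hadamard_fin (Fintype.card s) (A.submatrix e.symm e.symm) (fun i j => h _ _)
  rwa [Matrix.det_submatrix_equiv_self] at h1

/-- A matrix with one unit row and all other entries odd has determinant divisible by `2^(m-2)`. -/
theorem dvd_det_of_odd {s : Type*} [Fintype s] [DecidableEq s] (A : Matrix s s ℤ) (y : s)
    (h : ∀ i, i ≠ y → ∀ j, Odd (A i j)) :
    (2 : ℤ) ^ (Fintype.card s - 2) ∣ A.det := by
  classical
  by_cases hex : ∃ k, k ≠ y
  · obtain ⟨k, hk⟩ := hex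
    -- half of the difference
    let B' : Matrix s s ℤ := fun i j => if i = y then A i j else if i = k then A i j else (A i j - A k j) / 2
    let d : s → ℤ := fun i => if i = y then 1 else if i = k then 1 else 2
    let B : Matrix s s ℤ := Matrix.of fun i j => d i * B' i j
    have hAB : A.det = B.det := by
      apply Matrix.det_eq_of_forall_row_eq_smul_add_const (fun i => if i = y then 0 else if i = k then 0 else 1) k
      · simp
      · intro i j
        by_cases h1 : i = y
        · subst h1
          simp [B, B', d]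
        · by_cases h2 : i = k
          · subst h2
            simp [B, B', d, h1]
          · have hodd : Even (A i j - A k j) := (h i h1 j).sub_odd (h k hk j)
            have h3 : 2 * ((A i j - A k j) / 2) = A i j - A k j := Int.two_mul_ediv_two_of_even hodd
            simp only [B, B', d, h1, h2, if_false, Matrix.of_apply, if_true, if_neg hk]
            rw [h3]; ring
    rw [hAB, Matrix.det_mul_column]
    apply dvd_mul_of_dvd_left
    have hprod : ∏ i, d i = 2 ^ (Fintype.card s - 2) := by
      have h1 : ∀ i, d i = if i ∈ ({y, k} : Finset s) then 1 else 2 := by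
        intro i
        simp only [d, Finset.mem_insert, Finset.mem_singleton]
        by_cases h1 : i = y <;> by_cases h2 : i = k <;> simp [h1, h2]
      rw [Finset.prod_congr rfl (fun i _ => h1 i), Finset.prod_ite]
      simp only [Finset.prod_const_one, one_mul, Finset.prod_const]
      congr 1
      have h2 : (Finset.univ.filter (fun i => i ∉ ({y, k} : Finset s))) = Finset.univ \ {y, k} := by
        ext i; simp
      rw [h2, Finset.card_sdiff_of_subset (Finset.subset_univ _), Finset.card_univ,
        Finset.card_pair (Ne.symm hk)]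
    rw [hprod]
  · push Not at hex
    have : Fintype.card s ≤ 1 := Fintype.card_le_one_iff.2 (fun a b => by rw [hex a, hex b])
    rw [show Fintype.card s - 2 = 0 by omega]
    simp

end Pool.Agent.Helper42.Asum
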