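import Mathlib

/-!
Flat lemma: a configuration of 0/1 vectors which are the only 0/1 points of their affine hull
yields a monotone Boolean function.
-/

namespace Pool.Agent.Helper42.Asum

open Finset

variable {A J : Type*} [Fintype A] [Fintype J] [DecidableEq A] [DecidableEq J]

/-- General (arbitrary index type) versions. -/
def GMono (f : (J → Bool) → Bool) : Prop :=
  ∀ x y : J → Bool, (∀ i, x i = true → y i = true) → f x = true → f y = true

def GWeighted (f : (J → Bool) → Bool) : Prop :=
  ∃ (w : J → ℝ) (q : ℝ), ∀ x, f x = true ↔ q ≤ ∑ i, if x i = true then w i else 0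

def GSummable (f : (J → Bool) → Bool) (k : ℕ) : Prop :=
  ∃ x y : Fin k → J → Bool, (∀ i, f (x i) = true) ∧ (∀ i, f (y i) = false) ∧
    ∀ j, (∑ i, if x i j = true then (1 : ℤ) else 0) = ∑ i, if y i j = true then (1 : ℤ) else 0

/-- measure of the `j`-th set -/
def ms (v : A → J → Bool) (t : A → ℝ) (j : J) : ℝ := ∑ a, if v a j = true then t a else 0

/-- rigidity -/
def Rigid (v : A → J → Bool) : Prop :=
  ∀ t : A → ℝ, ∑ a, t a = 1 → (∀ j, ms v t j = 0 ∨ ms v t j = 1) →
    ∃ a₀, ∀ j, ms v t j = if v a₀ j = true then 1 else 0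

def Sep (v : A → J → Bool) : Prop :=
  ∀ a a', a ≠ a' → ∃ j j', j ≠ j' ∧ v a j ≠ v a' j ∧ v a j' ≠ v a' j'

/-- the real vector of a Boolean vector -/
def rv (x : J → Bool) : J → ℝ := fun j => if x j = true then 1 else 0

omit [DecidableEq A] [DecidableEq J] in
/-- duality: a 0/1 vector outside the configuration is separated by a functional vanishing on it -/
lemma exists_functional (v : A → J → Bool) (hr : Rigid v) (x : J → Bool) (hx : ∀ a, v a ≠ x) :
    ∃ (w : J → ℝ) (q : ℝ), (∀ a, ∑ j, w j * rv (v a) j = q) ∧ ∑ j, w j * rv x j ≠ q := by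
  classical
  let S : Submodule ℝ ((J → ℝ) × ℝ) := Submodule.span ℝ (Set.range (fun a => (rv (v a), (1 : ℝ))))
  have hnot : (rv x, (1 : ℝ)) ∉ S := by
    intro hmem
    rw [Submodule.mem_span_range_iff_exists_fun] at hmem
    obtain ⟨t, ht⟩ := hmem
    have h1 : ∑ a, t a = 1 := by
      have := congrArg Prod.snd ht
      simpa [Prod.snd_sum] using this
    have h2 : ∀ j, ms v t j = rv x j := by
      intro j
      have := congrFun (congrArg Prod.fst ht) j
      simp only [Prod.fst_sum, Prod.smul_mk, Finset.sum_apply, Pi.smul_apply, smul_eq_mul] at this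
      rw [← this]
      unfold ms rv
      refine Finset.sum_congr rfl (fun a _ => ?_)
      split_ifs <;> simp
    obtain ⟨a₀, ha₀⟩ := hr t h1 (by
      intro j
      rw [h2 j]; unfold rv; split_ifs <;> simp)
    apply hx a₀
    funext j
    have h3 := ha₀ j
    rw [h2 j] at h3
    unfold rv at h3
    cases hxj : x j <;> cases hvj : v a₀ j <;> simp_all
  obtain ⟨f, hf, hS⟩ := Submodule.exists_le_ker_of_notMem hnot
  have hlin : ∀ (u : J → ℝ) (c : ℝ), f (u, c) = ∑ j, f (Pi.single j 1, 0) * u j + c * f (0, 1) := by
    intro u c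
    have h1 : (u, c) = ∑ j, u j • ((Pi.single j (1 : ℝ) : J → ℝ), (0 : ℝ)) + c • ((0 : J → ℝ), (1:ℝ)) := by
      ext j
      · simp [Prod.fst_sum, Finset.sum_apply, Pi.single_apply]
      · simp [Prod.snd_sum]
    rw [h1, map_add, map_sum]
    simp only [map_smul, smul_eq_mul]
    congr 1
    refine Finset.sum_congr rfl (fun j _ => by ring)
  refine ⟨fun j => f (Pi.single j 1, 0), -f (0, 1), ?_, ?_⟩
  · intro a
    have h1 : f (rv (v a), 1) = 0 := by
      have : (rv (v a), (1 : ℝ)) ∈ S := Submodule.subset_span ⟨a, rfl⟩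
      exact hS this
    rw [hlin] at h1
    linarith
  · intro h
    apply hf
    rw [hlin]
    linarith

/-- weights vanishing on the configuration, missing all other 0/1 points, with no zero entry -/
lemma exists_weights [Nonempty A] (v : A → J → Bool) (hr : Rigid v) (hs : Sep v) :
    ∃ (w : J → ℝ) (q : ℝ), (∀ a, ∑ j, w j * rv (v a) j = q) ∧
      (∀ x : J → Bool, (∀ a, v a ≠ x) → ∑ j, w j * rv x j ≠ q) ∧ (∀ j, w j ≠ 0) := by
  classical
  -- the space of functionals
  let P : Submodule ℝ ((J → ℝ) × ℝ) :=
    { carrier := {Φ | ∀ a, ∑ j, Φ.1 j * rv (v a) j = Φ.2}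
      add_mem' := by
        intro Φ Ψ h1 h2 a
        simp only [Prod.fst_add, Prod.snd_add, Pi.add_apply, add_mul, Finset.sum_add_distrib]
        rw [h1 a, h2 a]
      zero_mem' := by intro a; simp
      smul_mem' := by
        intro c Φ h a
        simp only [Prod.smul_fst, Prod.smul_snd, Pi.smul_apply, smul_eq_mul, mul_assoc]
        rw [← Finset.mul_sum, h a] }
  -- for each bad x a subspace
  let Q : (J → Bool) → Submodule ℝ P := fun x =>
    { carrier := {Φ | ∑ j, Φ.1.1 j * rv x j = Φ.1.2}
      add_mem' := by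
        intro Φ Ψ h1 h2
        simp only [Set.mem_ofPred_eq, Submodule.coe_add, Prod.fst_add, Prod.snd_add, Pi.add_apply,
          add_mul, Finset.sum_add_distrib] at *
        rw [h1, h2]
      zero_mem' := by simp
      smul_mem' := by
        intro c Φ h
        simp only [Set.mem_ofPred_eq, Submodule.coe_smul, Prod.smul_fst, Prod.smul_snd,
          Pi.smul_apply, smul_eq_mul, mul_assoc] at *
        rw [← Finset.mul_sum, h] }
  let R : J → Submodule ℝ P := fun j =>
    { carrier := {Φ | Φ.1.1 j = 0}
      add_mem' := by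
        intro Φ Ψ h1 h2
        simp only [Set.mem_ofPred_eq, Submodule.coe_add, Prod.fst_add, Pi.add_apply] at *
        rw [h1, h2]; simp
      zero_mem' := by simp
      smul_mem' := by
        intro c Φ h
        simp only [Set.mem_ofPred_eq, Submodule.coe_smul, Prod.smul_fst,
          Pi.smul_apply, smul_eq_mul] at *
        rw [h]; simp }
  have hQ : ∀ x : J → Bool, (∀ a, v a ≠ x) → Q x ≠ ⊤ := by
    intro x hx htop
    obtain ⟨w, q, h1, h2⟩ := exists_functional v hr x hx
    have : (⟨(w, q), h1⟩ : P) ∈ Q x := by rw [htop]; trivial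
    exact h2 this
  have hR : ∀ j, R j ≠ ⊤ := by
    intro j htop
    obtain ⟨a⟩ := ‹Nonempty A›
    -- flip coordinate j of v a
    let x : J → Bool := Function.update (v a) j (!(v a j))
    have hx : ∀ a', v a' ≠ x := by
      intro a' h
      by_cases haa : a' = a
      · subst haa
        have := congrFun h j
        simp [x] at this
      · obtain ⟨i, i', hii, h1, h2⟩ := hs a' a haa
        rw [h] at h1 h2
        simp only [x] at h1 h2
        by_cases e1 : i = j
        · have e2 : i' ≠ j := by rintro rfl; exact hii e1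
          rw [Function.update_of_ne e2] at h2
          exact h2 rfl
        · rw [Function.update_of_ne e1] at h1
          exact h1 rfl
    obtain ⟨w, q, h1, h2⟩ := exists_functional v hr x hx
    have h3 : (⟨(w, q), h1⟩ : P) ∈ R j := by rw [htop]; trivial
    have h4 : w j = 0 := h3
    apply h2
    rw [← h1 a]
    refine Finset.sum_congr rfl (fun i _ => ?_)
    by_cases hij : i = j
    · subst hij; simp [h4]
    · have : x i = v a i := by simp only [x]; rw [Function.update_of_ne hij]
      simp [rv, this]
  let s : Finset (Subspace ℝ P) :=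
    ((Finset.univ.filter (fun x : J → Bool => ∀ a, v a ≠ x)).image Q) ∪ (Finset.univ.image R)
  have hs' : (⊤ : Subspace ℝ P) ∉ s := by
    intro h
    rw [Finset.mem_union, Finset.mem_image, Finset.mem_image] at h
    rcases h with ⟨x, hx, hx2⟩ | ⟨j, _, hj⟩
    · exact hQ x (Finset.mem_filter.1 hx).2 hx2
    · exact hR j hj
  have hne := Subspace.biUnion_ne_univ_of_top_notMem hs'
  rw [Set.ne_univ_iff_exists_notMem] at hne
  obtain ⟨Φ, hΦ⟩ := hne
  simp only [Set.mem_iUnion, not_exists] at hΦ
  refine ⟨Φ.1.1, Φ.1.2, Φ.2, ?_, ?_⟩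
  · intro x hx h
    apply hΦ (Q x) _ h
    exact Finset.mem_union_left _ (Finset.mem_image.2 ⟨x, by simpa using hx, rfl⟩)
  · intro j h
    apply hΦ (R j) _ h
    exact Finset.mem_union_right _ (Finset.mem_image.2 ⟨j, Finset.mem_univ _, rfl⟩)

/-- flipping a Boolean vector in the coordinates of `σ` -/
def flipv (σ : J → Bool) (x : J → Bool) : J → Bool := fun j => xor (x j) (σ j)

omit [Fintype J] [DecidableEq J] in
lemma flipv_apply (σ x : J → Bool) (j : J) : flipv σ x j = xor (x j) (σ j) := rfl

omit [Fintype J] [DecidableEq J] in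
lemma flipv_flipv (σ x : J → Bool) : flipv σ (flipv σ x) = x := by
  funext j; simp [flipv]

omit [DecidableEq A] in
/-- The main flat lemma. -/
theorem flat_main [Nonempty A] (v : A → J → Bool) (hr : Rigid v) (hs : Sep v)
    (c : A → ℝ) (hc0 : ∑ a, c a = 0) (hcj : ∀ j, ms v c j = 0) (hcne : ∃ a, c a < 0)
    (K : ℕ)
    (hK : ∀ κ : A → ℤ, ∑ a, κ a = 0 → (∀ j, (∑ a, if v a j = true then κ a else 0) = 0) →
      κ ≠ 0 → ∃ a, (K : ℤ) ≤ |κ a|) :
    ∃ f : (J → Bool) → Bool, GMono f ∧ ¬ GWeighted f ∧ ∀ k, 1 ≤ k → GSummable f k → K ≤ k := by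
  classical
  obtain ⟨w, q, hw1, hw2, hw3⟩ := exists_weights v hr hs
  have hinj : Function.Injective v := by
    intro a a' h
    by_contra hne
    obtain ⟨j, _, _, h1, _⟩ := hs a a' hne
    exact h1 (by rw [h])
  let σ : J → Bool := fun j => decide (w j < 0)
  let F : (J → Bool) → ℝ := fun x => ∑ j, w j * rv (flipv σ x) j
  let g : (J → Bool) → Prop := fun x => q < F x ∨ (F x = q ∧ ∃ a, 0 < c a ∧ flipv σ x = v a)
  -- monotonicity of F coordinatewise
  have hterm : ∀ x y : J → Bool, (∀ i, x i = true → y i = true) →
      ∀ j, w j * rv (flipv σ x) j ≤ w j * rv (flipv σ y) j := by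
    intro x y hxy j
    rcases lt_or_gt_of_ne (hw3 j) with hneg | hpos
    · have hσ : σ j = true := by simp [σ, hneg]
      simp only [rv, flipv, hσ]
      have := hxy j
      cases hx : x j <;> cases hy : y j <;> simp_all <;> linarith
    · have hσ : σ j = false := by simp [σ, hpos.le]
      simp only [rv, flipv, hσ]
      have := hxy j
      cases hx : x j <;> cases hy : y j <;> simp_all <;> linarith
  have hterm' : ∀ x y : J → Bool, (∀ i, x i = true → y i = true) →
      ∀ j, w j * rv (flipv σ x) j = w j * rv (flipv σ y) j → x j = y j := by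
    intro x y hxy j h
    have h2 := mul_left_cancel₀ (hw3 j) h
    simp only [rv, flipv] at h2
    cases hx : x j <;> cases hy : y j <;> cases hσ : σ j <;> simp_all
  refine ⟨fun x => decide (g x), ?_, ?_, ?_⟩
  · -- monotone
    intro x y hxy hfx
    simp only [decide_eq_true_eq] at hfx ⊢
    have hle : F x ≤ F y := Finset.sum_le_sum (fun j _ => hterm x y hxy j)
    rcases hfx with h | ⟨h, a, ha, hxa⟩
    · left; exact lt_of_lt_of_le h hle
    · rcases hle.lt_or_eq with h2 | h2
      · left; rw [← h]; exact h2
      · have hxy' : x = y := by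
          funext j
          apply hterm' x y hxy j
          exact (Finset.sum_eq_sum_iff_of_le (fun j _ => hterm x y hxy j)).1 h2 j
            (Finset.mem_univ j)
        subst hxy'
        right; exact ⟨h, a, ha, hxa⟩
  · -- not weighted
    rintro ⟨w', q', hw'⟩
    simp only [decide_eq_true_eq] at hw'
    -- values at the configuration
    have hFa : ∀ a, F (flipv σ (v a)) = q := by
      intro a; simp only [F, flipv_flipv]; exact hw1 a
    have hga : ∀ a, g (flipv σ (v a)) ↔ 0 < c a := by
      intro a
      constructor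
      · rintro (h | ⟨_, a', ha', h'⟩)
        · rw [hFa a] at h; exact absurd h (lt_irrefl _)
        · rw [flipv_flipv] at h'
          rw [hinj h']; exact ha'
      · intro h; right; exact ⟨hFa a, a, h, flipv_flipv _ _⟩
    let G : A → ℝ := fun a => (∑ i, if flipv σ (v a) i = true then w' i else 0) - q'
    have hsum : ∑ a, c a * G a = 0 := by
      simp only [G, mul_sub, Finset.sum_sub_distrib, ← Finset.sum_mul, hc0, zero_mul, sub_zero]
      simp only [Finset.mul_sum]
      rw [Finset.sum_comm]
      apply Finset.sum_eq_zero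
      intro j _
      have h1 : ∀ a, c a * (if flipv σ (v a) j = true then w' j else 0) =
          (if σ j = true then (c a - if v a j = true then c a else 0) * w' j
            else (if v a j = true then c a else 0) * w' j) := by
        intro a
        have h0 := flipv_apply σ (v a) j
        cases h1 : v a j <;> cases h2 : σ j <;> rw [h1, h2] at h0 <;> simp [h0]
      rw [Finset.sum_congr rfl (fun a _ => h1 a)]
      have h2 := hcj j
      unfold ms at h2
      split_ifs
      · rw [← Finset.sum_mul, Finset.sum_sub_distrib, hc0, h2]; simp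
      · rw [← Finset.sum_mul, h2]; simp
    have hnn : ∀ a, 0 ≤ c a * G a := by
      intro a
      by_cases h : 0 < c a
      · have h1 := (hw' _).1 ((hga a).2 h)
        have : 0 ≤ G a := by simp only [G]; linarith
        positivity
      · have h1 : ¬ (q' ≤ ∑ i, if flipv σ (v a) i = true then w' i else 0) := by
          intro h2; exact h ((hga a).1 ((hw' _).2 h2))
        have : G a < 0 := by simp only [G]; linarith
        push Not at h
        exact mul_nonneg_of_nonpos_of_nonpos h this.le
    obtain ⟨a, ha⟩ := hcne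
    have h1 := (Finset.sum_eq_zero_iff_of_nonneg (fun a _ => hnn a)).1 hsum a (Finset.mem_univ a)
    have h2 : ¬ (q' ≤ ∑ i, if flipv σ (v a) i = true then w' i else 0) := by
      intro h2; exact absurd ((hga a).1 ((hw' _).2 h2)) (by linarith)
    have h3 : G a < 0 := by simp only [G]; linarith
    have h4 : 0 < c a * G a := mul_pos_of_neg_of_neg ha h3
    linarith
  · -- summability
    intro k hk ⟨x, y, hx, hy, hxy⟩
    simp only [decide_eq_true_eq, decide_eq_false_iff_not] at hx hy
    have hFx : ∀ i, q ≤ F (x i) := by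
      intro i
      rcases hx i with h | ⟨h, _⟩
      · exact h.le
      · exact h.ge
    have hFy : ∀ i, F (y i) ≤ q := by
      intro i
      have := hy i
      simp only [g, not_or] at this
      linarith [this.1]
    have hrv : ∀ (z : Fin k → J → Bool) (j : J), ∑ i, rv (flipv σ (z i)) j =
        if σ j = true then (k : ℝ) - ((∑ i, if z i j = true then (1 : ℤ) else 0 : ℤ) : ℝ)
          else ((∑ i, if z i j = true then (1 : ℤ) else 0 : ℤ) : ℝ) := by
      intro z j
      push_cast
      split_ifs with hσ
      · have : ∀ i : Fin k, rv (flipv σ (z i)) j = 1 - (if z i j = true then (1:ℝ) else 0) := by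
          intro i
          have h0 := flipv_apply σ (z i) j
          cases h1 : z i j <;> rw [h1, hσ] at h0 <;> simp [rv, h0]
        rw [Finset.sum_congr rfl (fun i _ => this i), Finset.sum_sub_distrib]
        simp
      · refine Finset.sum_congr rfl (fun i _ => ?_)
        simp only [Bool.not_eq_true] at hσ
        have h0 := flipv_apply σ (z i) j
        cases h1 : z i j <;> rw [h1, hσ] at h0 <;> simp [rv, h0]
    have hsumF : ∀ (z : Fin k → J → Bool), ∑ i, F (z i) = ∑ j, w j * ∑ i, rv (flipv σ (z i)) j := by
      intro z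
      simp only [F]
      rw [Finset.sum_comm]
      refine Finset.sum_congr rfl (fun j _ => ?_)
      rw [Finset.mul_sum]
    have hrvxy : ∀ j, ∑ i, rv (flipv σ (x i)) j = ∑ i, rv (flipv σ (y i)) j := by
      intro j
      rw [hrv, hrv, hxy j]
    have hFeq : ∑ i, F (x i) = ∑ i, F (y i) := by
      rw [hsumF, hsumF]
      refine Finset.sum_congr rfl (fun j _ => ?_)
      rw [hrvxy j]
    have hxq : ∀ i, F (x i) = q := by
      have h1 : ∑ i : Fin k, q ≤ ∑ i, F (x i) := Finset.sum_le_sum (fun i _ => hFx i)
      have h2 : ∑ i, F (y i) ≤ ∑ i : Fin k, q := Finset.sum_le_sum (fun i _ => hFy i)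
      have h3 : ∑ i : Fin k, q = ∑ i, F (x i) := le_antisymm h1 (hFeq ▸ h2)
      intro i
      exact ((Finset.sum_eq_sum_iff_of_le (fun i _ => hFx i)).1 h3 i (Finset.mem_univ i)).symm
    have hyq : ∀ i, F (y i) = q := by
      have h1 : ∑ i : Fin k, q ≤ ∑ i, F (x i) := Finset.sum_le_sum (fun i _ => hFx i)
      have h2 : ∑ i, F (y i) ≤ ∑ i : Fin k, q := Finset.sum_le_sum (fun i _ => hFy i)
      have h3 : ∑ i, F (y i) = ∑ i : Fin k, q := le_antisymm h2 (hFeq ▸ h1)
      intro i
      exact ((Finset.sum_eq_sum_iff_of_le (fun i _ => hFy i)).1 h3 i (Finset.mem_univ i))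
    -- atoms
    have hxa : ∀ i, ∃ a, 0 < c a ∧ flipv σ (x i) = v a := by
      intro i
      rcases hx i with h | ⟨_, h⟩
      · rw [hxq i] at h; exact absurd h (lt_irrefl _)
      · exact h
    have hyb : ∀ i, ∃ a, ¬ (0 < c a) ∧ flipv σ (y i) = v a := by
      intro i
      by_cases hex : ∃ a, v a = flipv σ (y i)
      · obtain ⟨a, ha⟩ := hex
        refine ⟨a, ?_, ha.symm⟩
        intro hca
        exact hy i (Or.inr ⟨hyq i, a, hca, ha.symm⟩)
      · push Not at hex
        exact absurd (hyq i) (hw2 _ hex)
    choose α hα1 hα2 using hxa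
    choose β hβ1 hβ2 using hyb
    let κ : A → ℤ := fun a => (∑ i, if α i = a then (1 : ℤ) else 0) - ∑ i, if β i = a then (1 : ℤ) else 0
    have hκ0 : ∑ a, κ a = 0 := by
      simp only [κ, Finset.sum_sub_distrib]
      rw [Finset.sum_comm, Finset.sum_comm (f := fun a i => if β i = a then (1 : ℤ) else 0)]
      simp
    have hκj : ∀ j, (∑ a, if v a j = true then κ a else 0) = 0 := by
      intro j
      have h1 : ∀ (θ : Fin k → A), (∑ a, if v a j = true then (∑ i, if θ i = a then (1 : ℤ) else 0) else 0)
          = ∑ i, if v (θ i) j = true then (1 : ℤ) else 0 := by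
        intro θ
        have : ∀ a, (if v a j = true then (∑ i, if θ i = a then (1 : ℤ) else 0) else 0)
            = ∑ i, if θ i = a then (if v a j = true then (1:ℤ) else 0) else 0 := by
          intro a
          split_ifs
          · rfl
          · simp
        rw [Finset.sum_congr rfl (fun a _ => this a), Finset.sum_comm]
        refine Finset.sum_congr rfl (fun i _ => ?_)
        rw [Finset.sum_ite_eq]
        simp
      have h2 : ∀ a, (if v a j = true then κ a else 0) =
          (if v a j = true then (∑ i, if α i = a then (1 : ℤ) else 0) else 0) -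
          (if v a j = true then (∑ i, if β i = a then (1 : ℤ) else 0) else 0) := by
        intro a
        simp only [κ]
        split_ifs <;> simp
      rw [Finset.sum_congr rfl (fun a _ => h2 a), Finset.sum_sub_distrib, h1, h1]
      have h3 : ∀ (θ : Fin k → A) (z : Fin k → J → Bool), (∀ i, flipv σ (z i) = v (θ i)) →
          (((∑ i, if v (θ i) j = true then (1 : ℤ) else 0) : ℤ) : ℝ) = ∑ i, rv (flipv σ (z i)) j := by
        intro θ z h
        push_cast
        refine Finset.sum_congr rfl (fun i _ => ?_)
        rw [h i]; rfl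
      have h4 := h3 α x hα2
      have h5 := h3 β y hβ2
      rw [hrvxy j, ← h5] at h4
      have h6 : (∑ i, if v (α i) j = true then (1 : ℤ) else 0) = ∑ i, if v (β i) j = true then (1 : ℤ) else 0 := by
        exact_mod_cast h4
      rw [h6]; simp
    have hκne : κ ≠ 0 := by
      intro h
      have i0 : Fin k := ⟨0, hk⟩
      have h1 := congrFun h (α i0)
      simp only [κ, Pi.zero_apply] at h1
      have h2 : (∑ i, if β i = α i0 then (1 : ℤ) else 0) = 0 := by
        apply Finset.sum_eq_zero
        intro i _
        rw [if_neg]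
        intro h3
        exact hβ1 i (h3 ▸ hα1 i0)
      have h3 : (1 : ℤ) ≤ ∑ i, if α i = α i0 then (1 : ℤ) else 0 := by
        have := Finset.single_le_sum (f := fun i => if α i = α i0 then (1 : ℤ) else 0)
          (fun i _ => by positivity) (Finset.mem_univ i0)
        simpa using this
      omega
    obtain ⟨a, ha⟩ := hK κ hκ0 hκj hκne
    have h1 : ∀ (θ : Fin k → A), 0 ≤ (∑ i, if θ i = a then (1 : ℤ) else 0) ∧
        (∑ i, if θ i = a then (1 : ℤ) else 0) ≤ k := by
      intro θ
      constructor
      · positivity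
      · calc (∑ i, if θ i = a then (1 : ℤ) else 0) ≤ ∑ i : Fin k, (1 : ℤ) :=
              Finset.sum_le_sum (fun i _ => by split_ifs <;> norm_num)
          _ = k := by simp
    have h2 : |κ a| ≤ k := by
      rw [abs_le]
      have h3 := h1 α
      have h4 := h1 β
      simp only [κ]
      constructor <;> omega
    have : (K : ℤ) ≤ k := le_trans ha h2
    exact_mod_cast this

end Pool.Agent.Helper42.Asum
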