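import Mathlib
import Pool.Agent.Helper42.Asum.Flat

/-!
Array lemma: `G+2` scaled copies of a base zero-sum system make a rigid configuration.
-/

namespace Pool.Agent.Helper42.Asum

open Finset

section
variable {B I : Type*} [Fintype B] [Fintype I] [DecidableEq B] [DecidableEq I]

/-- Sum of `κ` over the set `{x | bs x i}`. -/
def bsum (bs : B → I → Bool) (κ : B → ℝ) (i : I) : ℝ := ∑ x, if bs x i = true then κ x else 0

/-- Data of a base system. -/
structure Base (B I : Type*) [Fintype B] [Fintype I] [DecidableEq B] [DecidableEq I] where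
  bs : B → I → Bool
  c0 : B → ℝ
  p : Bool → B
  n : Bool → B
  q : Bool → B
  r : Bool → B
  Mv : ℝ
  hsum : ∑ x, c0 x = 0
  hbs : ∀ i, bsum bs c0 i = 0
  huniq : ∀ κ : B → ℝ, ∑ x, κ x = 0 → (∀ i, bsum bs κ i = 0) → ∃ s : ℝ, ∀ x, κ x = s * c0 x
  hp : ∀ a, c0 (p a) = Mv
  hn : ∀ a, c0 (n a) = -Mv
  hq : ∀ a, c0 (q a) = 1
  hr : ∀ a, c0 (r a) = -1
  hpi : p true ≠ p false
  hni : n true ≠ n false
  hqi : q true ≠ q false
  hri : r true ≠ r false
  hM : 1 < Mv

variable (S : Base B I) (G g : ℕ)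

/-- coordinates -/
abbrev Coord (B I : Type*) (G g : ℕ) : Type _ :=
  (Fin (G + 2) × I) ⊕ (Fin (G + 2)) ⊕ (Fin g × Bool × I) ⊕ B ⊕ (Fin G × Bool × Bool)

/-- incidence of atoms and coordinates -/
def inc : Fin (G + 2) × B → Coord B I G g → Bool
  | (γ, x), Sum.inl (γ', i) => decide (γ = γ') && S.bs x i
  | (γ, _), Sum.inr (Sum.inl γ') => decide (γ = γ')
  | (γ, x), Sum.inr (Sum.inr (Sum.inl (l, ε, i))) => decide (γ.val.testBit l.val = ε) && !(S.bs x i)
  | (_, x), Sum.inr (Sum.inr (Sum.inr (Sum.inl x'))) => decide (x = x')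
  | (γ, x), Sum.inr (Sum.inr (Sum.inr (Sum.inr (γ', a, true)))) =>
      (decide (γ.val = γ'.val) && decide (x = S.p a)) || (decide (γ.val = γ'.val + 1) && decide (x = S.r a))
  | (γ, x), Sum.inr (Sum.inr (Sum.inr (Sum.inr (γ', a, false)))) =>
      (decide (γ.val = γ'.val) && decide (x = S.n a)) || (decide (γ.val = γ'.val + 1) && decide (x = S.q a))

/-- measures of the coordinates, written out -/
lemma ms_inl (t : Fin (G + 2) × B → ℝ) (γ : Fin (G + 2)) (i : I) :
    ms (inc S G g) t (Sum.inl (γ, i)) = bsum S.bs (fun x => t (γ, x)) i := by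
  unfold ms bsum
  rw [Fintype.sum_prod_type, Finset.sum_eq_single γ]
  · refine Finset.sum_congr rfl (fun x _ => ?_)
    simp [inc]
  · intro γ' _ h
    apply Finset.sum_eq_zero
    intro x _
    simp [inc, h]
  · simp

lemma ms_grp (t : Fin (G + 2) × B → ℝ) (γ : Fin (G + 2)) :
    ms (inc S G g) t (Sum.inr (Sum.inl γ)) = ∑ x, t (γ, x) := by
  unfold ms
  rw [Fintype.sum_prod_type, Finset.sum_eq_single γ]
  · refine Finset.sum_congr rfl (fun x _ => ?_)
    simp [inc]
  · intro γ' _ h
    apply Finset.sum_eq_zero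
    intro x _
    simp [inc, h]
  · simp

lemma ms_bit (t : Fin (G + 2) × B → ℝ) (l : Fin g) (ε : Bool) (i : I) :
    ms (inc S G g) t (Sum.inr (Sum.inr (Sum.inl (l, ε, i)))) =
      ∑ γ : Fin (G + 2), if γ.val.testBit l.val = ε then
        ((∑ x, t (γ, x)) - bsum S.bs (fun x => t (γ, x)) i) else 0 := by
  unfold ms
  rw [Fintype.sum_prod_type]
  refine Finset.sum_congr rfl (fun γ _ => ?_)
  unfold bsum
  rw [← Finset.sum_sub_distrib]
  by_cases h : γ.val.testBit l.val = ε
  · rw [if_pos h]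
    refine Finset.sum_congr rfl (fun x _ => ?_)
    simp only [inc, h]
    cases S.bs x i <;> simp
  · rw [if_neg h]
    apply Finset.sum_eq_zero
    intro x _
    simp [inc, h]

lemma ms_col (t : Fin (G + 2) × B → ℝ) (x : B) :
    ms (inc S G g) t (Sum.inr (Sum.inr (Sum.inr (Sum.inl x)))) = ∑ γ, t (γ, x) := by
  unfold ms
  rw [Fintype.sum_prod_type]
  refine Finset.sum_congr rfl (fun γ _ => ?_)
  rw [Finset.sum_eq_single x]
  · simp [inc]
  · intro x' _ h
    simp [inc, h]
  · simp

/-- group index of the lower end of a link -/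
def lo (γ : Fin G) : Fin (G + 2) := ⟨γ.val, by omega⟩
def hi (γ : Fin G) : Fin (G + 2) := ⟨γ.val + 1, by omega⟩

lemma two_point (t : Fin (G + 2) × B → ℝ) (γ : Fin G) (y z : B) :
    (∑ a : Fin (G + 2) × B, if ((decide (a.1.val = γ.val) && decide (a.2 = y)) ||
      (decide (a.1.val = γ.val + 1) && decide (a.2 = z))) = true then t a else 0) =
      t (lo G γ, y) + t (hi G γ, z) := by
  have hne : (lo G γ, y) ≠ (hi G γ, z) := by
    intro h
    have := congrArg (fun a => a.1.val) h
    simp [lo, hi] at this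
  rw [← Finset.sum_filter]
  have : (Finset.univ.filter (fun a : Fin (G + 2) × B => ((decide (a.1.val = γ.val) && decide (a.2 = y)) ||
      (decide (a.1.val = γ.val + 1) && decide (a.2 = z))) = true)) = {(lo G γ, y), (hi G γ, z)} := by
    ext ⟨γ', x⟩
    simp only [Finset.mem_filter, Finset.mem_univ, true_and, Bool.or_eq_true, Bool.and_eq_true,
      decide_eq_true_eq, Finset.mem_insert, Finset.mem_singleton, Prod.mk.injEq, lo, hi, Fin.ext_iff]
  rw [this, Finset.sum_pair hne]

lemma ms_linkp (t : Fin (G + 2) × B → ℝ) (γ : Fin G) (a : Bool) :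
    ms (inc S G g) t (Sum.inr (Sum.inr (Sum.inr (Sum.inr (γ, a, true))))) =
      t (lo G γ, S.p a) + t (hi G γ, S.r a) := by
  rw [← two_point]
  rfl

lemma ms_linkn (t : Fin (G + 2) × B → ℝ) (γ : Fin G) (a : Bool) :
    ms (inc S G g) t (Sum.inr (Sum.inr (Sum.inr (Sum.inr (γ, a, false))))) =
      t (lo G γ, S.n a) + t (hi G γ, S.q a) := by
  rw [← two_point]
  rfl

/-- relations: products -/
lemma ms_prod (s : Fin (G + 2) → ℝ) (h0 : ∑ γ, s γ = 0)
    (hs : ∀ γ : Fin G, s (hi G γ) = s (lo G γ) * S.Mv) (j : Coord B I G g) :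
    ms (inc S G g) (fun a => s a.1 * S.c0 a.2) j = 0 := by
  have hb : ∀ (γ : Fin (G + 2)) (i : I), bsum S.bs (fun x => s γ * S.c0 x) i = 0 := by
    intro γ i
    have := S.hbs i
    unfold bsum at this ⊢
    have h2 : ∀ x, (if S.bs x i = true then s γ * S.c0 x else 0) = s γ * (if S.bs x i = true then S.c0 x else 0) := by
      intro x; split_ifs <;> simp
    rw [Finset.sum_congr rfl (fun x _ => h2 x), ← Finset.mul_sum, this, mul_zero]
  have hg : ∀ (γ : Fin (G + 2)), ∑ x, s γ * S.c0 x = 0 := by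
    intro γ
    rw [← Finset.mul_sum, S.hsum, mul_zero]
  rcases j with ⟨γ, i⟩ | γ | ⟨l, ε, i⟩ | x | ⟨γ, a, b⟩
  · rw [ms_inl]; exact hb γ i
  · rw [ms_grp]; exact hg γ
  · rw [ms_bit]
    apply Finset.sum_eq_zero
    intro γ _
    simp only [hb, hg]
    simp
  · rw [ms_col]
    simp only
    rw [← Finset.sum_mul, h0, zero_mul]
  · cases b
    · rw [ms_linkn]
      simp only [S.hn, S.hq, hs]
      ring
    · rw [ms_linkp]
      simp only [S.hp, S.hr, hs]
      ring

omit [DecidableEq I] in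
lemma ms_add' {A J : Type*} [Fintype A] (v : A → J → Bool) (t t' : A → ℝ) (j : J) :
    ms v (fun a => t a + t' a) j = ms v t j + ms v t' j := by
  unfold ms
  rw [← Finset.sum_add_distrib]
  refine Finset.sum_congr rfl (fun a _ => ?_)
  split_ifs <;> simp

lemma ms_unit {A J : Type*} [Fintype A] [DecidableEq A] (v : A → J → Bool) (a₀ : A) (j : J) :
    ms v (fun a => if a = a₀ then (1 : ℝ) else 0) j = if v a₀ j = true then 1 else 0 := by
  unfold ms
  rw [Finset.sum_eq_single a₀]
  · simp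
  · intro a _ h; simp [h]
  · simp

theorem inc_sep : Sep (inc S G g) := by
  rintro ⟨γ, x⟩ ⟨γ', x'⟩ hne
  by_cases h : γ = γ'
  · subst h
    have hx : x ≠ x' := by rintro rfl; exact hne rfl
    refine ⟨Sum.inr (Sum.inr (Sum.inr (Sum.inl x))), Sum.inr (Sum.inr (Sum.inr (Sum.inl x'))), ?_, ?_, ?_⟩
    · simp [hx]
    · simp [inc, hx, Ne.symm hx]
    · simp [inc, hx]
  · refine ⟨Sum.inr (Sum.inl γ), Sum.inr (Sum.inl γ'), ?_, ?_, ?_⟩
    · simp [h]
    · simp [inc, Ne.symm h]
    · simp [inc, h]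

theorem inc_rigid (hg : G + 2 ≤ 2 ^ g) : Rigid (inc S G g) := by
  intro t ht hj
  -- group masses
  have hτ : ∀ γ, (∑ x, t (γ, x)) = 0 ∨ (∑ x, t (γ, x)) = 1 := by
    intro γ
    have := hj (Sum.inr (Sum.inl γ))
    rwa [ms_grp] at this
  have hτsum : ∑ γ, ∑ x, t (γ, x) = 1 := by rw [← ht, Fintype.sum_prod_type]
  obtain ⟨γ₀, hγ₀⟩ : ∃ γ₀, ∑ x, t (γ₀, x) = 1 := by
    by_contra hcon
    push Not at hcon
    have : ∀ γ, (∑ x, t (γ, x)) = 0 := fun γ => (hτ γ).resolve_right (hcon γ)
    simp [this] at hτsum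
  have hother : ∀ γ, γ ≠ γ₀ → ∑ x, t (γ, x) = 0 := by
    intro γ hne
    rcases hτ γ with h | h
    · exact h
    · exfalso
      have h1 : ∑ γ' ∈ ({γ, γ₀} : Finset (Fin (G + 2))), ∑ x, t (γ', x) ≤ ∑ γ', ∑ x, t (γ', x) := by
        apply Finset.sum_le_sum_of_subset_of_nonneg (Finset.subset_univ _)
        intro γ' _ _
        rcases hτ γ' with h | h <;> rw [h] <;> norm_num
      rw [Finset.sum_pair hne, h, hγ₀, hτsum] at h1
      norm_num at h1
  -- local rigidity of the inactive groups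
  have hδ : ∀ γ, γ ≠ γ₀ → ∀ i, bsum S.bs (fun x => t (γ, x)) i = 0 := by
    intro γ hne i
    have h01 : ∀ γ', 0 ≤ bsum S.bs (fun x => t (γ', x)) i := by
      intro γ'
      have := hj (Sum.inl (γ', i))
      rw [ms_inl] at this
      rcases this with h | h <;> rw [h] <;> norm_num
    -- a separating bit
    obtain ⟨l, hl, hbit⟩ : ∃ l, l < g ∧ γ.val.testBit l ≠ γ₀.val.testBit l := by
      by_contra hcon
      push Not at hcon
      apply hne
      apply Fin.ext
      apply Nat.eq_of_testBit_eq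
      intro l
      by_cases hl : l < g
      · exact hcon l hl
      · push Not at hl
        have hp : 2 ^ g ≤ 2 ^ l := Nat.pow_le_pow_right (by norm_num) hl
        rw [Nat.testBit_lt_two_pow (by have := γ.isLt; omega),
          Nat.testBit_lt_two_pow (by have := γ₀.isLt; omega)]
    have hm := hj (Sum.inr (Sum.inr (Sum.inl (⟨l, hl⟩, γ.val.testBit l, i))))
    rw [ms_bit] at hm
    have hm' : 0 ≤ ∑ γ' : Fin (G + 2), (if γ'.val.testBit l = γ.val.testBit l then
        ((∑ x, t (γ', x)) - bsum S.bs (fun x => t (γ', x)) i) else 0) := by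
      rcases hm with h | h
      · exact h.ge
      · rw [h]; norm_num
    have hterm : ∀ γ' : Fin (G + 2), (if γ'.val.testBit l = γ.val.testBit l then
        ((∑ x, t (γ', x)) - bsum S.bs (fun x => t (γ', x)) i) else 0) ≤ 0 := by
      intro γ'
      split_ifs with h
      · have hne' : γ' ≠ γ₀ := by
          rintro rfl
          exact hbit h.symm
        rw [hother γ' hne']
        linarith [h01 γ']
      · exact le_refl _
    have hz := (Finset.sum_eq_zero_iff_of_nonpos (fun γ' _ => hterm γ')).1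
      (le_antisymm (Finset.sum_nonpos (fun γ' _ => hterm γ')) hm') γ (Finset.mem_univ γ)
    rw [if_pos rfl, hother γ hne] at hz
    linarith
  have hs : ∀ γ, ∃ s : ℝ, γ ≠ γ₀ → ∀ x, t (γ, x) = s * S.c0 x := by
    intro γ
    by_cases hne : γ = γ₀
    · exact ⟨0, fun h => absurd hne h⟩
    · obtain ⟨s, hs⟩ := S.huniq (fun x => t (γ, x)) (hother γ hne) (hδ γ hne)
      exact ⟨s, fun _ => hs⟩
  choose s' hs' using hs
  let s : Fin (G + 2) → ℝ := fun γ => if γ = γ₀ then -(∑ γ' ∈ Finset.univ.erase γ₀, s' γ') else s' γ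
  have hs0 : ∑ γ, s γ = 0 := by
    rw [← Finset.add_sum_erase _ _ (Finset.mem_univ γ₀)]
    have h1 : s γ₀ = -(∑ γ' ∈ Finset.univ.erase γ₀, s' γ') := by simp [s]
    have h2 : ∑ γ ∈ Finset.univ.erase γ₀, s γ = ∑ γ' ∈ Finset.univ.erase γ₀, s' γ' := by
      refine Finset.sum_congr rfl (fun γ hγ => ?_)
      simp [s, Finset.ne_of_mem_erase hγ]
    rw [h1, h2]; ring
  -- columns
  have hcol : ∀ x, (∑ γ, t (γ, x)) = 0 ∨ (∑ γ, t (γ, x)) = 1 := by
    intro x
    have := hj (Sum.inr (Sum.inr (Sum.inr (Sum.inl x))))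
    rwa [ms_col] at this
  have hcolsum : ∑ x, ∑ γ, t (γ, x) = 1 := by
    rw [Finset.sum_comm]; exact hτsum
  obtain ⟨x₀, hx₀⟩ : ∃ x₀, ∑ γ, t (γ, x₀) = 1 := by
    by_contra hcon
    push Not at hcon
    have : ∀ x, (∑ γ, t (γ, x)) = 0 := fun x => (hcol x).resolve_right (hcon x)
    simp [this] at hcolsum
  have hcolother : ∀ x, x ≠ x₀ → ∑ γ, t (γ, x) = 0 := by
    intro x hne
    rcases hcol x with h | h
    · exact h
    · exfalso
      have h1 : ∑ x' ∈ ({x, x₀} : Finset B), ∑ γ, t (γ, x') ≤ ∑ x', ∑ γ, t (γ, x') := by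
        apply Finset.sum_le_sum_of_subset_of_nonneg (Finset.subset_univ _)
        intro x' _ _
        rcases hcol x' with h | h <;> rw [h] <;> norm_num
      rw [Finset.sum_pair hne, h, hx₀, hcolsum] at h1
      norm_num at h1
  -- the form of t
  have hform : ∀ γ x, t (γ, x) = (if ((γ, x) : Fin (G + 2) × B) = (γ₀, x₀) then 1 else 0) + s γ * S.c0 x := by
    intro γ x
    by_cases hne : γ = γ₀
    · subst hne
      have h1 : ∑ γ', t (γ', x) = t (γ, x) + ∑ γ' ∈ Finset.univ.erase γ, t (γ', x) :=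
        (Finset.add_sum_erase _ _ (Finset.mem_univ γ)).symm
      have h2 : ∑ γ' ∈ Finset.univ.erase γ, t (γ', x) = (∑ γ' ∈ Finset.univ.erase γ, s' γ') * S.c0 x := by
        rw [Finset.sum_mul]
        refine Finset.sum_congr rfl (fun γ' hγ' => ?_)
        exact hs' γ' (Finset.ne_of_mem_erase hγ') x
      have h3 : s γ = -(∑ γ' ∈ Finset.univ.erase γ, s' γ') := by simp [s]
      rw [h3]
      by_cases hx : x = x₀
      · subst hx
        rw [hx₀, h2] at h1
        rw [if_pos rfl]
        linarith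
      · rw [hcolother x hx, h2] at h1
        rw [if_neg (by simp [hx])]
        linarith
    · have h3 : s γ = s' γ := by simp [s, hne]
      rw [h3, hs' γ hne x]
      simp [hne]
  -- links
  have hlink : ∀ γ : Fin G, s (hi G γ) = s (lo G γ) * S.Mv := by
    intro γ
    set D := s (lo G γ) * S.Mv - s (hi G γ) with hD
    have hpos : ∀ a, ((if ((lo G γ, S.p a) : Fin (G + 2) × B) = (γ₀, x₀) then (1:ℝ) else 0) +
        (if ((hi G γ, S.r a) : Fin (G + 2) × B) = (γ₀, x₀) then 1 else 0)) + D = 0 ∨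
        ((if ((lo G γ, S.p a) : Fin (G + 2) × B) = (γ₀, x₀) then (1:ℝ) else 0) +
        (if ((hi G γ, S.r a) : Fin (G + 2) × B) = (γ₀, x₀) then 1 else 0)) + D = 1 := by
      intro a
      have := hj (Sum.inr (Sum.inr (Sum.inr (Sum.inr (γ, a, true)))))
      rw [ms_linkp, hform, hform, S.hp, S.hr] at this
      rcases this with h | h
      · left; rw [hD]; linarith
      · right; rw [hD]; linarith
    have hneg : ∀ a, ((if ((lo G γ, S.n a) : Fin (G + 2) × B) = (γ₀, x₀) then (1:ℝ) else 0) +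
        (if ((hi G γ, S.q a) : Fin (G + 2) × B) = (γ₀, x₀) then 1 else 0)) - D = 0 ∨
        ((if ((lo G γ, S.n a) : Fin (G + 2) × B) = (γ₀, x₀) then (1:ℝ) else 0) +
        (if ((hi G γ, S.q a) : Fin (G + 2) × B) = (γ₀, x₀) then 1 else 0)) - D = 1 := by
      intro a
      have := hj (Sum.inr (Sum.inr (Sum.inr (Sum.inr (γ, a, false)))))
      rw [ms_linkn, hform, hform, S.hn, S.hq] at this
      rcases this with h | h
      · left; rw [hD]; linarith
      · right; rw [hD]; linarith
    have hlohi : lo G γ ≠ hi G γ := by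
      intro h
      have := congrArg Fin.val h
      simp [lo, hi] at this
    -- some a avoids the unit atom
    have hD1 : D = 0 ∨ D = 1 := by
      have hex : ∃ a, ¬ ((lo G γ, S.p a) : Fin (G + 2) × B) = (γ₀, x₀) ∧
          ¬ ((hi G γ, S.r a) : Fin (G + 2) × B) = (γ₀, x₀) := by
        by_contra hcon
        push Not at hcon
        have h1 := hcon true
        have h2 := hcon false
        by_cases e1 : ((lo G γ, S.p true) : Fin (G + 2) × B) = (γ₀, x₀)
        · rw [Prod.mk.injEq] at e1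
          have e2 : ¬ ((lo G γ, S.p false) : Fin (G + 2) × B) = (γ₀, x₀) := by
            rw [Prod.mk.injEq]
            rintro ⟨_, h⟩
            exact S.hpi (e1.2.trans h.symm)
          have e3 := h2 e2
          rw [Prod.mk.injEq] at e3
          exact hlohi (e1.1.trans e3.1.symm)
        · have e3 := h1 e1
          rw [Prod.mk.injEq] at e3
          by_cases e2 : ((lo G γ, S.p false) : Fin (G + 2) × B) = (γ₀, x₀)
          · rw [Prod.mk.injEq] at e2
            exact hlohi (e2.1.trans e3.1.symm)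
          · have e4 := h2 e2
            rw [Prod.mk.injEq] at e4
            exact S.hri (e3.2.trans e4.2.symm)
      obtain ⟨a, ha1, ha2⟩ := hex
      have := hpos a
      rw [if_neg ha1, if_neg ha2] at this
      simpa using this
    have hD2 : D = 0 ∨ D = -1 := by
      have hex : ∃ a, ¬ ((lo G γ, S.n a) : Fin (G + 2) × B) = (γ₀, x₀) ∧
          ¬ ((hi G γ, S.q a) : Fin (G + 2) × B) = (γ₀, x₀) := by
        by_contra hcon
        push Not at hcon
        have h1 := hcon true
        have h2 := hcon false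
        by_cases e1 : ((lo G γ, S.n true) : Fin (G + 2) × B) = (γ₀, x₀)
        · rw [Prod.mk.injEq] at e1
          have e2 : ¬ ((lo G γ, S.n false) : Fin (G + 2) × B) = (γ₀, x₀) := by
            rw [Prod.mk.injEq]
            rintro ⟨_, h⟩
            exact S.hni (e1.2.trans h.symm)
          have e3 := h2 e2
          rw [Prod.mk.injEq] at e3
          exact hlohi (e1.1.trans e3.1.symm)
        · have e3 := h1 e1
          rw [Prod.mk.injEq] at e3
          by_cases e2 : ((lo G γ, S.n false) : Fin (G + 2) × B) = (γ₀, x₀)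
          · rw [Prod.mk.injEq] at e2
            exact hlohi (e2.1.trans e3.1.symm)
          · have e4 := h2 e2
            rw [Prod.mk.injEq] at e4
            exact S.hqi (e3.2.trans e4.2.symm)
      obtain ⟨a, ha1, ha2⟩ := hex
      have := hneg a
      rw [if_neg ha1, if_neg ha2] at this
      rcases this with h | h
      · left; linarith
      · right; linarith
    have hD0 : D = 0 := by
      rcases hD1 with h | h
      · exact h
      · rcases hD2 with h' | h'
        · exact h'
        · rw [h] at h'; norm_num at h'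
    linarith
  refine ⟨(γ₀, x₀), fun j => ?_⟩
  have ht' : t = fun a => (if a = (γ₀, x₀) then (1:ℝ) else 0) + s a.1 * S.c0 a.2 := by
    funext ⟨γ, x⟩
    exact hform γ x
  rw [ht', ms_add', ms_unit, ms_prod S G g s hs0 hlink j, add_zero]

/-- size of integral relations -/
theorem inc_large (K : ℕ) (hKM : (K : ℝ) ≤ S.Mv ^ (G + 1)) (κ : Fin (G + 2) × B → ℤ)
    (hκj : ∀ j, (∑ a, if inc S G g a j = true then κ a else 0) = 0) (hne : κ ≠ 0) :
    ∃ a, (K : ℤ) ≤ |κ a| := by
  have hκr : ∀ j, ms (inc S G g) (fun a => (κ a : ℝ)) j = 0 := by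
    intro j
    have := congrArg (fun z : ℤ => (z : ℝ)) (hκj j)
    simp only [Int.cast_sum, Int.cast_zero] at this
    rw [← this]
    unfold ms
    refine Finset.sum_congr rfl (fun a _ => ?_)
    split_ifs <;> simp
  have h1 : ∀ γ, ∃ s : ℝ, ∀ x, (κ (γ, x) : ℝ) = s * S.c0 x := by
    intro γ
    apply S.huniq (fun x => (κ (γ, x) : ℝ))
    · have := hκr (Sum.inr (Sum.inl γ))
      rwa [ms_grp] at this
    · intro i
      have := hκr (Sum.inl (γ, i))
      rwa [ms_inl] at this
  choose s hs using h1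
  have hs0 : ∑ γ, s γ = 0 := by
    have := hκr (Sum.inr (Sum.inr (Sum.inr (Sum.inl (S.q true)))))
    rw [ms_col] at this
    simp only [hs, S.hq, mul_one] at this
    exact this
  have hlink : ∀ γ : Fin G, s (hi G γ) = s (lo G γ) * S.Mv := by
    intro γ
    have := hκr (Sum.inr (Sum.inr (Sum.inr (Sum.inr (γ, true, true)))))
    rw [ms_linkp] at this
    simp only [hs, S.hp, S.hr] at this
    linarith
  have hpow : ∀ m (hm : m < G + 1), s ⟨m, by omega⟩ = s ⟨0, by omega⟩ * S.Mv ^ m := by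
    intro m
    induction m with
    | zero => intro _; simp
    | succ m ih =>
      intro hm
      have h1 := ih (by omega)
      have h2 := hlink ⟨m, by omega⟩
      simp only [hi, lo] at h2
      rw [h2, h1, pow_succ]; ring
  have hs00 : s ⟨0, by omega⟩ ≠ 0 := by
    intro h
    apply hne
    have hall : ∀ γ, s γ = 0 := by
      have hmain : ∀ γ : Fin (G + 2), γ ≠ Fin.last (G + 1) → s γ = 0 := by
        intro γ hγ
        have hlt : γ.val < G + 1 := by
          have h1 := γ.isLt
          have h2 : γ.val ≠ G + 1 := fun h => hγ (Fin.ext h)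
          omega
        have := hpow γ.val hlt
        rw [h, zero_mul] at this
        exact this
      intro γ
      by_cases hγ : γ = Fin.last (G + 1)
      · subst hγ
        rw [Finset.sum_eq_single (Fin.last (G + 1)) (fun γ _ h => hmain γ h) (by simp)] at hs0
        exact hs0
      · exact hmain γ hγ
    funext ⟨γ, x⟩
    have := hs γ x
    rw [hall γ, zero_mul] at this
    exact_mod_cast this
  have hge : 1 ≤ |s ⟨0, by omega⟩| := by
    have h1 := hs ⟨0, by omega⟩ (S.q true)
    rw [S.hq, mul_one] at h1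
    rw [← h1] at hs00 ⊢
    have h2 : κ (⟨0, by omega⟩, S.q true) ≠ 0 := by
      intro h; rw [h] at hs00; simp at hs00
    have h3 := Int.one_le_abs h2
    exact_mod_cast h3
  refine ⟨(⟨G, by omega⟩, S.p true), ?_⟩
  have h2 : |(κ (⟨G, by omega⟩, S.p true) : ℝ)| = |s ⟨0, by omega⟩| * S.Mv ^ (G + 1) := by
    rw [hs, S.hp, hpow G (by omega), abs_mul, abs_mul]
    have hM := S.hM
    rw [abs_of_pos (show (0:ℝ) < S.Mv ^ G by positivity), abs_of_pos (show (0:ℝ) < S.Mv by linarith)]
    ring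
  have h3 : (K : ℝ) ≤ |(κ (⟨G, by omega⟩, S.p true) : ℝ)| := by
    rw [h2]
    have hM := S.hM
    have : (0:ℝ) < S.Mv ^ (G + 1) := by positivity
    nlinarith
  exact_mod_cast h3

theorem array_main (hg : G + 2 ≤ 2 ^ g) (K : ℕ) (hKM : (K : ℝ) ≤ S.Mv ^ (G + 1)) :
    ∃ f : (Coord B I G g → Bool) → Bool, GMono f ∧ ¬ GWeighted f ∧
      ∀ k, 1 ≤ k → GSummable f k → K ≤ k := by
  -- the global relation
  let s : Fin (G + 2) → ℝ := fun γ => if γ.val = G + 1 then -(∑ m ∈ Finset.range (G + 1), S.Mv ^ m)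
    else S.Mv ^ γ.val
  have hs0 : ∑ γ, s γ = 0 := by
    rw [Fin.sum_univ_castSucc]
    have h1 : ∀ γ : Fin (G + 1), s (Fin.castSucc γ) = S.Mv ^ γ.val := by
      intro γ
      have := γ.isLt
      simp only [s, Fin.val_castSucc]
      rw [if_neg (by omega)]
    rw [Finset.sum_congr rfl (fun γ _ => h1 γ), Fin.sum_univ_eq_sum_range (fun m => S.Mv ^ m)]
    simp [s]
  have hlink : ∀ γ : Fin G, s (hi G γ) = s (lo G γ) * S.Mv := by
    intro γ
    have := γ.isLt
    simp only [s, hi, lo]
    rw [if_neg (by omega), if_neg (by omega), pow_succ]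
  classical
  have : Nonempty (Fin (G + 2) × B) := ⟨(0, S.p true)⟩
  refine flat_main (inc S G g) (inc_rigid S G g hg) (inc_sep S G g)
    (fun a => s a.1 * S.c0 a.2) ?_ (ms_prod S G g s hs0 hlink) ?_ K ?_
  · rw [Fintype.sum_prod_type]
    simp only [← Finset.mul_sum, S.hsum, mul_zero, Finset.sum_const_zero]
  · refine ⟨(⟨0, by omega⟩, S.r true), ?_⟩
    simp only [s, S.hr]
    norm_num
  · intro κ _ hκj hne
    exact inc_large S G g K hKM κ hκj hne

end

end Pool.Agent.Helper42.Asum
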