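import Mathlib

/-!
Walsh functions on the cube `W k` (with `2^k` points), the special sign functions `rr k i`,
and the growth inequality.
-/

namespace Pool.Agent.Helper42.Asum

open Finset

/-- the cube with `2^k` points -/
def W : ℕ → Type
  | 0 => Unit
  | (k + 1) => W k ⊕ W k

instance instFintypeW : ∀ k, Fintype (W k)
  | 0 => inferInstanceAs (Fintype Unit)
  | (k + 1) => by
      haveI := instFintypeW k
      exact inferInstanceAs (Fintype (W k ⊕ W k))

instance instDecEqW : ∀ k, DecidableEq (W k)
  | 0 => inferInstanceAs (DecidableEq Unit)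
  | (k + 1) => by
      haveI := instDecEqW k
      exact inferInstanceAs (DecidableEq (W k ⊕ W k))

/-- inclusion of the two halves -/
def wl {k : ℕ} (β : W k) : W (k + 1) := Sum.inl β
def wr {k : ℕ} (β : W k) : W (k + 1) := Sum.inr β

lemma sumW {k : ℕ} (F : W (k + 1) → ℝ) : ∑ β, F β = (∑ β : W k, F (wl β)) + ∑ β : W k, F (wr β) := by
  have h : (instFintypeW (k + 1)) = inferInstanceAs (Fintype (W k ⊕ W k)) := Subsingleton.elim _ _
  exact Fintype.sum_sum_type (fun β : W k ⊕ W k => F β)

lemma card_W : ∀ k, Fintype.card (W k) = 2 ^ k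
  | 0 => rfl
  | (k + 1) => by
      have h1 : Fintype.card (W (k + 1)) = Fintype.card (W k ⊕ W k) := rfl
      rw [h1, Fintype.card_sum, card_W k]; ring

/-- Walsh functions as Boolean functions (`true` stands for `+1`). -/
def wb : (k : ℕ) → ℕ → W k → Bool
  | 0, _, _ => true
  | (k + 1), i, Sum.inl β => if i < 2 ^ k then wb k i β else wb k (i - 2 ^ k) β
  | (k + 1), i, Sum.inr β => if i < 2 ^ k then wb k i β else !(wb k (i - 2 ^ k) β)

/-- the special sign functions -/
def rr : (k : ℕ) → ℕ → W k → Bool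
  | 0, _, _ => true
  | (k + 1), i, Sum.inl β =>
      if i < 2 ^ k then rr k i β else if i = 2 ^ k then true else rr k (i - 2 ^ k) β
  | (k + 1), i, Sum.inr β =>
      if i < 2 ^ k then rr k i β else if i = 2 ^ k then false else wb k (i - 2 ^ k - 1) β

/-- number of binary digits `1` of `i < 2^k` -/
def pc : ℕ → ℕ → ℕ
  | 0, _ => 0
  | (k + 1), i => if i < 2 ^ k then pc k i else pc k (i - 2 ^ k) + 1

/-- sign of a Boolean -/
noncomputable def sg (b : Bool) : ℝ := if b = true then 1 else -1

lemma sg_not (b : Bool) : sg (!b) = - sg b := by cases b <;> simp [sg]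

/-- Walsh coefficients -/
noncomputable def ew (k i : ℕ) (κ : W k → ℝ) : ℝ := ∑ β, sg (wb k i β) * κ β

/-- pairing with `rr` -/
noncomputable def er (k i : ℕ) (κ : W k → ℝ) : ℝ := ∑ β, sg (rr k i β) * κ β

lemma ew_add (k i : ℕ) (u v : W k → ℝ) : ew k i (fun β => u β + v β) = ew k i u + ew k i v := by
  unfold ew; rw [← Finset.sum_add_distrib]; exact Finset.sum_congr rfl (fun _ _ => by ring)

lemma ew_sub (k i : ℕ) (u v : W k → ℝ) : ew k i (fun β => u β - v β) = ew k i u - ew k i v := by
  unfold ew; rw [← Finset.sum_sub_distrib]; exact Finset.sum_congr rfl (fun _ _ => by ring)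

lemma er_add (k i : ℕ) (u v : W k → ℝ) : er k i (fun β => u β + v β) = er k i u + er k i v := by
  unfold er; rw [← Finset.sum_add_distrib]; exact Finset.sum_congr rfl (fun _ _ => by ring)

lemma er_sub (k i : ℕ) (u v : W k → ℝ) : er k i (fun β => u β - v β) = er k i u - er k i v := by
  unfold er; rw [← Finset.sum_sub_distrib]; exact Finset.sum_congr rfl (fun _ _ => by ring)

/-- left and right halves of a function -/
def hl {k : ℕ} (κ : W (k + 1) → ℝ) : W k → ℝ := fun β => κ (wl β)
def hr {k : ℕ} (κ : W (k + 1) → ℝ) : W k → ℝ := fun β => κ (wr β)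

lemma ew_succ_lt (k i : ℕ) (h : i < 2 ^ k) (κ : W (k + 1) → ℝ) :
    ew (k + 1) i κ = ew k i (hl κ) + ew k i (hr κ) := by
  unfold ew
  rw [sumW]
  congr 1
  · refine Finset.sum_congr rfl (fun β _ => ?_)
    show sg (wb (k + 1) i (Sum.inl β)) * _ = _
    rw [wb, if_pos h]; rfl
  · refine Finset.sum_congr rfl (fun β _ => ?_)
    show sg (wb (k + 1) i (Sum.inr β)) * _ = _
    rw [wb, if_pos h]; rfl

lemma ew_succ_ge (k j : ℕ) (κ : W (k + 1) → ℝ) :
    ew (k + 1) (2 ^ k + j) κ = ew k j (hl κ) - ew k j (hr κ) := by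
  unfold ew
  rw [sumW, sub_eq_add_neg, ← Finset.sum_neg_distrib]
  congr 1
  · refine Finset.sum_congr rfl (fun β _ => ?_)
    show sg (wb (k + 1) (2 ^ k + j) (Sum.inl β)) * _ = _
    rw [wb, if_neg (by omega), Nat.add_sub_cancel_left]; rfl
  · refine Finset.sum_congr rfl (fun β _ => ?_)
    show sg (wb (k + 1) (2 ^ k + j) (Sum.inr β)) * _ = _
    rw [wb, if_neg (by omega), Nat.add_sub_cancel_left, sg_not, neg_mul]; rfl

lemma er_succ_lt (k i : ℕ) (h : i < 2 ^ k) (κ : W (k + 1) → ℝ) :
    er (k + 1) i κ = er k i (hl κ) + er k i (hr κ) := by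
  unfold er
  rw [sumW]
  congr 1
  · refine Finset.sum_congr rfl (fun β _ => ?_)
    show sg (rr (k + 1) i (Sum.inl β)) * _ = _
    rw [rr, if_pos h]; rfl
  · refine Finset.sum_congr rfl (fun β _ => ?_)
    show sg (rr (k + 1) i (Sum.inr β)) * _ = _
    rw [rr, if_pos h]; rfl

lemma wb_zero : ∀ k (β : W k), wb k 0 β = true
  | 0, _ => rfl
  | (k + 1), Sum.inl β => by
      show (if 0 < 2 ^ k then wb k 0 β else wb k (0 - 2 ^ k) β) = true
      rw [if_pos (by positivity)]; exact wb_zero k β
  | (k + 1), Sum.inr β => by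
      show (if 0 < 2 ^ k then wb k 0 β else !(wb k (0 - 2 ^ k) β)) = true
      rw [if_pos (by positivity)]; exact wb_zero k β

lemma ew_zero (k : ℕ) (κ : W k → ℝ) : ew k 0 κ = ∑ β, κ β := by
  unfold ew
  refine Finset.sum_congr rfl (fun β _ => ?_)
  rw [wb_zero]; simp [sg]

lemma er_succ_eq (k : ℕ) (κ : W (k + 1) → ℝ) :
    er (k + 1) (2 ^ k) κ = ew (k + 1) (2 ^ k) κ := by
  have h := ew_succ_ge k 0 κ
  rw [add_zero] at h
  rw [h, ew_zero, ew_zero]
  unfold er
  rw [sumW, sub_eq_add_neg, ← Finset.sum_neg_distrib]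
  congr 1
  · refine Finset.sum_congr rfl (fun β _ => ?_)
    show sg (rr (k + 1) (2 ^ k) (Sum.inl β)) * _ = _
    rw [rr, if_neg (lt_irrefl _), if_pos rfl]; simp [sg, hl]
  · refine Finset.sum_congr rfl (fun β _ => ?_)
    show sg (rr (k + 1) (2 ^ k) (Sum.inr β)) * _ = _
    rw [rr, if_neg (lt_irrefl _), if_pos rfl]; simp [sg, hr]

lemma er_succ_gt (k j : ℕ) (hj : 1 ≤ j) (κ : W (k + 1) → ℝ) :
    er (k + 1) (2 ^ k + j) κ = er k j (hl κ) + ew k (j - 1) (hr κ) := by
  unfold er ew
  rw [sumW]
  congr 1
  · refine Finset.sum_congr rfl (fun β _ => ?_)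
    show sg (rr (k + 1) (2 ^ k + j) (Sum.inl β)) * _ = _
    rw [rr, if_neg (by omega), if_neg (by omega), Nat.add_sub_cancel_left]; rfl
  · refine Finset.sum_congr rfl (fun β _ => ?_)
    show sg (rr (k + 1) (2 ^ k + j) (Sum.inr β)) * _ = _
    rw [rr, if_neg (by omega), if_neg (by omega), Nat.add_sub_cancel_left]; rfl

/-- half sum of `r_i` and the previous Walsh function -/
noncomputable def nn (k i : ℕ) (κ : W k → ℝ) : ℝ := (er k i κ + ew k (i - 1) κ) / 2

lemma nn_add (k i : ℕ) (u v : W k → ℝ) : nn k i (fun β => u β + v β) = nn k i u + nn k i v := by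
  unfold nn; rw [er_add, ew_add]; ring

lemma nn_sub (k i : ℕ) (u v : W k → ℝ) : nn k i (fun β => u β - v β) = nn k i u - nn k i v := by
  unfold nn; rw [er_sub, ew_sub]; ring

theorem growth_ineq : ∀ (k i : ℕ), 1 ≤ i → i < 2 ^ k → ∀ κ : W k → ℝ,
    |2 ^ (pc k i) * nn k i κ - ew k i κ - ew k (i - 1) κ| ≤ ∑ s ∈ range (i - 1), |ew k s κ| := by
  intro k
  induction k with
  | zero => intro i h1 h2; simp at h2; omega
  | succ k ih =>
    intro i h1 h2 κ
    rcases lt_trichotomy i (2 ^ k) with hlt | heq | hgt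
    · -- i < 2^k
      have hp : pc (k + 1) i = pc k i := by rw [pc, if_pos hlt]
      have hlt' : i - 1 < 2 ^ k := by omega
      have h3 := ih i h1 hlt (fun β => hl κ β + hr κ β)
      rw [nn_add, ew_add, ew_add] at h3
      have h4 : nn (k + 1) i κ = nn k i (hl κ) + nn k i (hr κ) := by
        unfold nn; rw [er_succ_lt k i hlt, ew_succ_lt k _ hlt']; ring
      rw [hp, h4, ew_succ_lt k i hlt, ew_succ_lt k _ hlt']
      refine le_trans h3 (le_of_eq ?_)
      refine Finset.sum_congr rfl (fun s hs => ?_)
      rw [Finset.mem_range] at hs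
      rw [ew_succ_lt k s (by omega), ew_add]
    · -- i = 2^k
      subst heq
      have hp : pc (k + 1) (2 ^ k) = 1 := by
        rw [pc, if_neg (lt_irrefl _), Nat.sub_self]
        have : ∀ k, pc k 0 = 0 := by
          intro k
          induction k with
          | zero => rfl
          | succ k ih => rw [pc, if_pos (by positivity)]; exact ih
        rw [this]
      unfold nn
      rw [hp, er_succ_eq]
      have : (2:ℝ) ^ 1 * ((ew (k + 1) (2 ^ k) κ + ew (k + 1) (2 ^ k - 1) κ) / 2) - ew (k + 1) (2 ^ k) κ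
        - ew (k + 1) (2 ^ k - 1) κ = 0 := by ring
      rw [this, abs_zero]
      exact Finset.sum_nonneg (fun _ _ => abs_nonneg _)
    · -- i = 2^k + j
      obtain ⟨j, rfl⟩ : ∃ j, i = 2 ^ k + j := ⟨i - 2 ^ k, by omega⟩
      have hj1 : 1 ≤ j := by omega
      have hj2 : j < 2 ^ k := by rw [pow_succ] at h2; omega
      have hp : pc (k + 1) (2 ^ k + j) = pc k j + 1 := by
        rw [pc, if_neg (by omega), Nat.add_sub_cancel_left]
      have hi1 : 2 ^ k + j - 1 = 2 ^ k + (j - 1) := by omega
      set u := hl κ with hu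
      set v := hr κ with hv
      have hN : nn (k + 1) (2 ^ k + j) κ = nn k j u := by
        unfold nn
        rw [er_succ_gt k j hj1, hi1, ew_succ_ge]; ring
      have h2N : 2 * nn k j u = nn k j (fun β => u β + v β) + nn k j (fun β => u β - v β) := by
        rw [nn_add, nn_sub]; ring
      have hb := ih j hj1 hj2 (fun β => u β - v β)
      have ha := ih j hj1 hj2 (fun β => u β + v β)
      have hE : (2:ℝ) ^ (pc k j + 1) * nn k j u = 2 ^ (pc k j) * nn k j (fun β => u β - v β) +
          2 ^ (pc k j) * nn k j (fun β => u β + v β) := by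
        rw [pow_succ]
        linear_combination (2:ℝ) ^ (pc k j) * h2N
      have hsplit : ∑ s ∈ range (2 ^ k + (j - 1)), |ew (k + 1) s κ| =
          ∑ s ∈ range (2 ^ k), |ew k s (fun β => u β + v β)| +
          ∑ s ∈ range (j - 1), |ew k s (fun β => u β - v β)| := by
        rw [Finset.sum_range_add]
        congr 1
        · refine Finset.sum_congr rfl (fun s hs => ?_)
          rw [Finset.mem_range] at hs
          rw [ew_succ_lt k s hs, ew_add]
        · refine Finset.sum_congr rfl (fun s _ => ?_)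
          rw [ew_succ_ge, ew_sub]
      rw [hp, hi1, hsplit, hN, hE, ew_succ_ge, ew_succ_ge, ← hu, ← hv, ← ew_sub, ← ew_sub]
      -- bound the `a` part
      have hA : |2 ^ (pc k j) * nn k j (fun β => u β + v β)| ≤
          ∑ s ∈ range (2 ^ k), |ew k s (fun β => u β + v β)| := by
        have h5 : ∑ s ∈ range (j + 1), |ew k s (fun β => u β + v β)| ≤
            ∑ s ∈ range (2 ^ k), |ew k s (fun β => u β + v β)| := by
          apply Finset.sum_le_sum_of_subset_of_nonneg
          · exact Finset.range_subset_range.2 (by omega)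
          · intro _ _ _; exact abs_nonneg _
        have h6 : ∑ s ∈ range (j + 1), |ew k s (fun β => u β + v β)| =
            ∑ s ∈ range (j - 1), |ew k s (fun β => u β + v β)| + |ew k (j - 1) (fun β => u β + v β)| +
            |ew k j (fun β => u β + v β)| := by
          rw [Finset.sum_range_succ]
          congr 1
          conv_lhs => rw [show j = (j - 1) + 1 by omega]
          rw [Finset.sum_range_succ]
        rw [h6] at h5
        refine le_trans ?_ h5
        have h7 : (2:ℝ) ^ (pc k j) * nn k j (fun β => u β + v β) =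
          (2 ^ (pc k j) * nn k j (fun β => u β + v β) - ew k j (fun β => u β + v β) -
            ew k (j - 1) (fun β => u β + v β)) + ew k j (fun β => u β + v β) +
            ew k (j - 1) (fun β => u β + v β) := by ring
        rw [h7]
        calc _ ≤ |(2 ^ (pc k j) * nn k j (fun β => u β + v β) - ew k j (fun β => u β + v β) -
            ew k (j - 1) (fun β => u β + v β)) + ew k j (fun β => u β + v β)| +
            |ew k (j - 1) (fun β => u β + v β)| := abs_add_le _ _
          _ ≤ |(2 ^ (pc k j) * nn k j (fun β => u β + v β) - ew k j (fun β => u β + v β) -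
            ew k (j - 1) (fun β => u β + v β))| + |ew k j (fun β => u β + v β)| +
            |ew k (j - 1) (fun β => u β + v β)| := by gcongr; exact abs_add_le _ _
          _ ≤ _ := by linarith
      have h8 : (2:ℝ) ^ (pc k j) * nn k j (fun β => u β - v β) +
          2 ^ (pc k j) * nn k j (fun β => u β + v β) - ew k j (fun β => u β - v β) -
            ew k (j - 1) (fun β => u β - v β) =
          2 ^ (pc k j) * nn k j (fun β => u β + v β) +
          (2 ^ (pc k j) * nn k j (fun β => u β - v β) - ew k j (fun β => u β - v β) -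
            ew k (j - 1) (fun β => u β - v β)) := by ring
      rw [h8]
      calc _ ≤ |2 ^ (pc k j) * nn k j (fun β => u β + v β)| +
          |(2 ^ (pc k j) * nn k j (fun β => u β - v β) - ew k j (fun β => u β - v β) -
            ew k (j - 1) (fun β => u β - v β))| := abs_add_le _ _
        _ ≤ _ := add_le_add hA hb

/-- the Walsh transform is injective -/
theorem ew_injective : ∀ (k : ℕ) (κ : W k → ℝ), (∀ i < 2 ^ k, ew k i κ = 0) → ∀ β, κ β = 0 := by
  intro k
  induction k with
  | zero =>
    intro κ h β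
    have h0 := h 0 (by norm_num)
    rw [ew_zero] at h0
    have : ∑ β : W 0, κ β = κ () := Fintype.sum_unique (fun β : Unit => κ β)
    rw [this] at h0
    cases β; exact h0
  | succ k ih =>
    intro κ h
    have ha : ∀ β, hl κ β + hr κ β = 0 := by
      apply ih (fun β => hl κ β + hr κ β)
      intro i hi
      rw [ew_add, ← ew_succ_lt k i hi]
      exact h i (by rw [pow_succ]; omega)
    have hb : ∀ β, hl κ β - hr κ β = 0 := by
      apply ih (fun β => hl κ β - hr κ β)
      intro i hi
      rw [ew_sub, ← ew_succ_ge k i]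
      exact h _ (by rw [pow_succ]; omega)
    rintro (β | β)
    · have h1 := ha β
      have h2 := hb β
      show hl κ β = 0
      linarith
    · have h1 := ha β
      have h2 := hb β
      show hr κ β = 0
      linarith

end Pool.Agent.Helper42.Asum
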