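import Mathlib
import Pool.Agent.Helper42.Asum.Walsh
import Pool.Agent.Helper42.Asum.Array

/-!
The base system.
-/

namespace Pool.Agent.Helper42.Asum

open Finset

/-- gadget indices -/
def Iv (k : ℕ) : Finset ℕ := (range (2 ^ k)).filter (fun i => 1 ≤ i ∧ pc (k + 1) (i + 1) ≤ 2)

/-- atoms of the base system -/
abbrev BA (k : ℕ) : Type := W k ⊕ (↥(Iv k) × Bool × Bool)

/-- indices of sets of the base system -/
abbrev BI (k : ℕ) : Type := ↥(Finset.Ico 2 (2 ^ k)) ⊕ (↥(Iv k) × Bool) ⊕ (↥(Iv k) × Bool)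

/-- incidences of the base system -/
def bsk (k : ℕ) : BA k → BI k → Bool
  | Sum.inl β, Sum.inl i => if 3 ≤ pc k i.1 then rr k i.1 β else wb k i.1 β
  | Sum.inr (j, _, s), Sum.inl i => decide (¬ (3 ≤ pc k i.1)) && (decide (j.1 + 1 = i.1) && !s)
  | Sum.inl β, Sum.inr (Sum.inl (j, _)) => wb k j.1 β
  | Sum.inr (j', a', s), Sum.inr (Sum.inl (j, a)) => decide (j' = j) && (decide (a' = a) && !s)
  | Sum.inl _, Sum.inr (Sum.inr _) => false
  | Sum.inr (j', a', _), Sum.inr (Sum.inr (j, a)) => decide (j' = j) && decide (a' = a)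

lemma half_sum {k : ℕ} (b : W k → Bool) (κ : W k → ℝ) :
    (∑ β, if b β = true then κ β else 0) = ((∑ β, κ β) + ∑ β, sg (b β) * κ β) / 2 := by
  rw [← Finset.sum_add_distrib, Finset.sum_div]
  refine Finset.sum_congr rfl (fun β _ => ?_)
  unfold sg
  split_ifs <;> ring

lemma sum_bool (F : Bool → ℝ) : ∑ b, F b = F true + F false := by simp

/-- sums over gadget atoms -/
lemma sum_gadget {k : ℕ} (F : ↥(Iv k) × Bool × Bool → ℝ) :
    ∑ x, F x = ∑ j : ↥(Iv k), ((F (j, true, true) + F (j, true, false)) + (F (j, false, true) + F (j, false, false))) := by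
  rw [Fintype.sum_prod_type]
  refine Finset.sum_congr rfl (fun j _ => ?_)
  rw [Fintype.sum_prod_type, sum_bool, sum_bool, sum_bool]

lemma bsum_pair (k : ℕ) (κ : BA k → ℝ) (j : ↥(Iv k)) (a : Bool) :
    bsum (bsk k) κ (Sum.inr (Sum.inr (j, a))) = κ (Sum.inr (j, a, true)) + κ (Sum.inr (j, a, false)) := by
  unfold bsum
  rw [Fintype.sum_sum_type]
  have h1 : ∑ β : W k, (if bsk k (Sum.inl β) (Sum.inr (Sum.inr (j, a))) = true then κ (Sum.inl β) else 0) = 0 := by
    apply Finset.sum_eq_zero; intro β _; simp [bsk]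
  rw [h1, zero_add, sum_gadget, Finset.sum_eq_single j]
  · cases a <;> simp [bsk]
  · intro j' _ h; simp [bsk, h]
  · simp

lemma bsum_val (k : ℕ) (κ : BA k → ℝ) (j : ↥(Iv k)) (a : Bool) :
    bsum (bsk k) κ (Sum.inr (Sum.inl (j, a))) =
      (ew k 0 (fun β => κ (Sum.inl β)) + ew k j.1 (fun β => κ (Sum.inl β))) / 2 + κ (Sum.inr (j, a, false)) := by
  unfold bsum
  rw [Fintype.sum_sum_type]
  congr 1
  · rw [ew_zero]
    exact half_sum (fun β => wb k j.1 β) (fun β => κ (Sum.inl β))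
  · rw [sum_gadget, Finset.sum_eq_single j]
    · cases a <;> simp [bsk]
    · intro j' _ h; simp [bsk, h]
    · simp

lemma bsum_reg (k : ℕ) (κ : BA k → ℝ) (i : ↥(Finset.Ico 2 (2 ^ k))) (h : 3 ≤ pc k i.1) :
    bsum (bsk k) κ (Sum.inl i) =
      (ew k 0 (fun β => κ (Sum.inl β)) + er k i.1 (fun β => κ (Sum.inl β))) / 2 := by
  unfold bsum
  rw [Fintype.sum_sum_type]
  have h1 : ∑ x : ↥(Iv k) × Bool × Bool, (if bsk k (Sum.inr x) (Sum.inl i) = true then κ (Sum.inr x) else 0) = 0 := by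
    apply Finset.sum_eq_zero; rintro ⟨j, a, s⟩ _; simp [bsk, h]
  rw [h1, add_zero, ew_zero]
  have h2 : ∀ β : W k, bsk k (Sum.inl β) (Sum.inl i) = rr k i.1 β := by
    intro β; simp [bsk, h]
  simp only [h2]
  exact half_sum (fun β => rr k i.1 β) (fun β => κ (Sum.inl β))

lemma pred_mem_Iv {k : ℕ} (i : ↥(Finset.Ico 2 (2 ^ k))) (h : ¬ 3 ≤ pc k i.1) : i.1 - 1 ∈ Iv k := by
  have hi := Finset.mem_Ico.1 i.2
  rw [Iv, Finset.mem_filter, Finset.mem_range]
  refine ⟨by omega, by omega, ?_⟩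
  rw [show i.1 - 1 + 1 = i.1 by omega, pc, if_pos hi.2]
  omega

lemma bsum_exc (k : ℕ) (κ : BA k → ℝ) (i : ↥(Finset.Ico 2 (2 ^ k))) (h : ¬ 3 ≤ pc k i.1) :
    bsum (bsk k) κ (Sum.inl i) =
      (ew k 0 (fun β => κ (Sum.inl β)) + ew k i.1 (fun β => κ (Sum.inl β))) / 2 +
      (κ (Sum.inr (⟨i.1 - 1, pred_mem_Iv i h⟩, true, false)) +
        κ (Sum.inr (⟨i.1 - 1, pred_mem_Iv i h⟩, false, false))) := by
  have hi := Finset.mem_Ico.1 i.2
  unfold bsum
  rw [Fintype.sum_sum_type]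
  congr 1
  · rw [ew_zero]
    have h2 : ∀ β : W k, bsk k (Sum.inl β) (Sum.inl i) = wb k i.1 β := by
      intro β; simp [bsk, h]
    simp only [h2]
    exact half_sum (fun β => wb k i.1 β) (fun β => κ (Sum.inl β))
  · rw [sum_gadget, Finset.sum_eq_single (⟨i.1 - 1, pred_mem_Iv i h⟩ : ↥(Iv k))]
    · have h3 : i.1 - 1 + 1 = i.1 := by omega
      simp [bsk, h, h3]
    · intro j' _ hne
      have h3 : ¬ (j'.1 + 1 = i.1) := by
        intro h4
        apply hne
        apply Subtype.ext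
        show j'.1 = i.1 - 1
        omega
      simp [bsk, h3]
    · simp

/-- solutions on the cube -/
def Sol (k : ℕ) (κ : W k → ℝ) : Prop :=
  ew k 0 κ = 0 ∧ ∀ i, 2 ≤ i → i < 2 ^ k →
    (3 ≤ pc k i → er k i κ = 0) ∧ (¬ 3 ≤ pc k i → ew k i κ = 2 * ew k (i - 1) κ)

/-- a relation of the base system, decoded -/
lemma decode (k : ℕ) (κ : BA k → ℝ) (h0 : ∑ x, κ x = 0) (h : ∀ i, bsum (bsk k) κ i = 0) :
    Sol k (fun β => κ (Sum.inl β)) ∧
    (∀ (j : ↥(Iv k)) (a : Bool), κ (Sum.inr (j, a, false)) = - (ew k j.1 (fun β => κ (Sum.inl β)) / 2)) ∧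
    (∀ (j : ↥(Iv k)) (a : Bool), κ (Sum.inr (j, a, true)) = ew k j.1 (fun β => κ (Sum.inl β)) / 2) := by
  have hpair : ∀ (j : ↥(Iv k)) (a : Bool), κ (Sum.inr (j, a, true)) + κ (Sum.inr (j, a, false)) = 0 := by
    intro j a
    rw [← bsum_pair]; exact h _
  have he0 : ew k 0 (fun β => κ (Sum.inl β)) = 0 := by
    rw [ew_zero]
    rw [Fintype.sum_sum_type, sum_gadget] at h0
    have : ∑ j : ↥(Iv k), ((κ (Sum.inr (j, true, true)) + κ (Sum.inr (j, true, false))) +
        (κ (Sum.inr (j, false, true)) + κ (Sum.inr (j, false, false)))) = 0 := by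
      apply Finset.sum_eq_zero
      intro j _
      rw [hpair, hpair]; ring
    rw [this, add_zero] at h0
    exact h0
  have hval : ∀ (j : ↥(Iv k)) (a : Bool), κ (Sum.inr (j, a, false)) = - (ew k j.1 (fun β => κ (Sum.inl β)) / 2) := by
    intro j a
    have := h (Sum.inr (Sum.inl (j, a)))
    rw [bsum_val, he0] at this
    linarith
  refine ⟨⟨he0, ?_⟩, hval, ?_⟩
  · intro i hi1 hi2
    constructor
    · intro hp
      have := h (Sum.inl ⟨i, Finset.mem_Ico.2 ⟨hi1, hi2⟩⟩)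
      rw [bsum_reg k κ _ hp, he0] at this
      linarith
    · intro hp
      have := h (Sum.inl ⟨i, Finset.mem_Ico.2 ⟨hi1, hi2⟩⟩)
      rw [bsum_exc k κ _ hp, he0, hval, hval] at this
      simp only at this
      linarith
  · intro j a
    have h1 := hpair j a
    have h2 := hval j a
    linarith

/-- growth -/
lemma growth {k : ℕ} {κ : W k → ℝ} (hS : Sol k κ) (h1 : 0 ≤ ew k 1 κ) :
    ∀ i, 1 ≤ i → i < 2 ^ k → 0 ≤ ew k i κ ∧ ∑ s ∈ range i, |ew k s κ| ≤ ew k i κ ∧
      (2 ≤ i → 2 * ew k (i - 1) κ ≤ ew k i κ ∧ 2 ^ (pc k i) * ew k (i - 1) κ ≤ 4 * ew k i κ) := by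
  intro i hi
  induction i, hi using Nat.le_induction with
  | base =>
    intro _
    refine ⟨h1, ?_, by omega⟩
    rw [Finset.sum_range_one, hS.1, abs_zero]
    exact h1
  | succ i hi ih =>
    intro hlt
    obtain ⟨hnn, hsum, _⟩ := ih (by omega)
    have h2 := hS.2 (i + 1) (by omega) hlt
    rw [Nat.add_sub_cancel] at h2 ⊢
    have key : 2 * ew k i κ ≤ ew k (i + 1) κ ∧ 2 ^ (pc k (i + 1)) * ew k i κ ≤ 4 * ew k (i + 1) κ := by
      by_cases hp : 3 ≤ pc k (i + 1)
      · have h3 := h2.1 hp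
        have h4 := growth_ineq k (i + 1) (by omega) hlt κ
        rw [Nat.add_sub_cancel] at h4
        have h5 : nn k (i + 1) κ = ew k i κ / 2 := by
          unfold nn; rw [h3, Nat.add_sub_cancel]; ring
        rw [h5] at h4
        have h6 := le_trans h4 hsum
        rw [abs_le] at h6
        have h7 : (8:ℝ) ≤ 2 ^ (pc k (i + 1)) := by
          calc (8:ℝ) = 2 ^ 3 := by norm_num
            _ ≤ 2 ^ (pc k (i + 1)) := pow_le_pow_right₀ (by norm_num) hp
        have h8 : 8 * ew k i κ ≤ 2 ^ (pc k (i + 1)) * ew k i κ := mul_le_mul_of_nonneg_right h7 hnn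
        constructor <;> nlinarith [h6.2]
      · have h3 := h2.2 hp
        have h7 : (2:ℝ) ^ (pc k (i + 1)) ≤ 4 := by
          calc (2:ℝ) ^ (pc k (i + 1)) ≤ 2 ^ 2 := pow_le_pow_right₀ (by norm_num) (by omega)
            _ = 4 := by norm_num
        have h8 : 2 ^ (pc k (i + 1)) * ew k i κ ≤ 4 * ew k i κ := mul_le_mul_of_nonneg_right h7 hnn
        constructor <;> nlinarith
    refine ⟨by linarith [key.1], ?_, fun _ => key⟩
    rw [Finset.sum_range_succ, abs_of_nonneg hnn]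
    linarith [key.1]

lemma growth_prod {k : ℕ} {κ : W k → ℝ} (hS : Sol k κ) (h1 : 0 ≤ ew k 1 κ) :
    ∀ i, 1 ≤ i → i < 2 ^ k →
      2 ^ (∑ s ∈ Finset.Ico 2 (i + 1), pc k s) * ew k 1 κ ≤ 4 ^ (i - 1) * ew k i κ := by
  intro i hi
  induction i, hi using Nat.le_induction with
  | base => intro _; simp
  | succ i hi ih =>
    intro hlt
    have h2 := ih (by omega)
    have h3 := ((growth hS h1 (i + 1) (by omega) hlt).2.2 (by omega)).2
    rw [Nat.add_sub_cancel] at h3 ⊢
    rw [Finset.sum_Ico_succ_top (by omega), pow_add]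
    obtain ⟨m, rfl⟩ : ∃ m, i = m + 1 := ⟨i - 1, by omega⟩
    rw [Nat.add_sub_cancel] at h2
    calc 2 ^ (∑ s ∈ Finset.Ico 2 (m + 1 + 1), pc k s) * 2 ^ (pc k (m + 1 + 1)) * ew k 1 κ
        = 2 ^ (pc k (m + 1 + 1)) * (2 ^ (∑ s ∈ Finset.Ico 2 (m + 1 + 1), pc k s) * ew k 1 κ) := by ring
      _ ≤ 2 ^ (pc k (m + 1 + 1)) * (4 ^ m * ew k (m + 1) κ) := by gcongr
      _ = 4 ^ m * (2 ^ (pc k (m + 1 + 1)) * ew k (m + 1) κ) := by ring
      _ ≤ 4 ^ m * (4 * ew k (m + 1 + 1) κ) := by gcongr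
      _ = 4 ^ (m + 1) * ew k (m + 1 + 1) κ := by ring

/-- vanishing -/
lemma sol_zero {k : ℕ} {κ : W k → ℝ} (hS : Sol k κ) (h1 : ew k 1 κ = 0) :
    ∀ i < 2 ^ k, ew k i κ = 0 := by
  intro i hi
  rcases Nat.lt_or_ge i 1 with h | h
  · have : i = 0 := by omega
    subst this; exact hS.1
  · obtain ⟨h2, h3, h4⟩ := growth hS h1.ge i h hi
    -- apply growth to -κ as well
    have hS' : Sol k (fun β => -κ β) := by
      have e1 : ∀ i, ew k i (fun β => -κ β) = - ew k i κ := by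
        intro i; unfold ew; rw [← Finset.sum_neg_distrib]
        exact Finset.sum_congr rfl (fun _ _ => by ring)
      have e2 : ∀ i, er k i (fun β => -κ β) = - er k i κ := by
        intro i; unfold er; rw [← Finset.sum_neg_distrib]
        exact Finset.sum_congr rfl (fun _ _ => by ring)
      refine ⟨by rw [e1, hS.1, neg_zero], fun i hi1 hi2 => ⟨fun hp => ?_, fun hp => ?_⟩⟩
      · rw [e2, (hS.2 i hi1 hi2).1 hp, neg_zero]
      · rw [e1, e1, (hS.2 i hi1 hi2).2 hp]; ring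
    have e1 : ∀ i, ew k i (fun β => -κ β) = - ew k i κ := by
      intro i; unfold ew; rw [← Finset.sum_neg_distrib]
      exact Finset.sum_congr rfl (fun _ _ => by ring)
    obtain ⟨h5, _, _⟩ := growth hS' (by rw [e1, h1, neg_zero]) i h hi
    rw [e1] at h5
    linarith

lemma card_BA (k : ℕ) : Fintype.card (BA k) = 2 ^ k + 4 * (Iv k).card := by
  simp only [BA, Fintype.card_sum, card_W, Fintype.card_prod, Fintype.card_coe, Fintype.card_bool]
  ring

lemma card_BI (k : ℕ) : Fintype.card (BI k) = (2 ^ k - 2) + 4 * (Iv k).card := by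
  simp only [BI, Fintype.card_sum, Fintype.card_prod, Fintype.card_coe, Fintype.card_bool, Nat.card_Ico]
  ring

lemma one_mem_Iv {k : ℕ} (hk : 1 ≤ k) : 1 ∈ Iv k := by
  rw [Iv, Finset.mem_filter, Finset.mem_range]
  have h2 : 2 ≤ 2 ^ k := by
    calc 2 = 2 ^ 1 := by norm_num
      _ ≤ 2 ^ k := Nat.pow_le_pow_right (by norm_num) hk
  refine ⟨by omega, le_refl _, ?_⟩
  -- pc (k+1) 2 ≤ 2
  have : ∀ k, 1 ≤ k → pc (k + 1) (1 + 1) ≤ 2 := by
    intro k hk
    induction k, hk using Nat.le_induction with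
    | base => decide
    | succ k hk ih =>
      have : (1 + 1 : ℕ) < 2 ^ (k + 1) := by
        have : 2 ^ 2 ≤ 2 ^ (k + 1) := Nat.pow_le_pow_right (by norm_num) (by omega)
        omega
      rw [pc, if_pos this]
      exact ih
  exact this k hk

lemma pc_zero : ∀ k, pc k 0 = 0 := by
  intro k
  induction k with
  | zero => rfl
  | succ k ih => rw [pc, if_pos (by positivity)]; exact ih

lemma max_mem_Iv {k : ℕ} (hk : 1 ≤ k) : 2 ^ k - 1 ∈ Iv k := by
  rw [Iv, Finset.mem_filter, Finset.mem_range]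
  have h2 : 2 ≤ 2 ^ k := by
    calc 2 = 2 ^ 1 := by norm_num
      _ ≤ 2 ^ k := Nat.pow_le_pow_right (by norm_num) hk
  refine ⟨by omega, by omega, ?_⟩
  rw [show 2 ^ k - 1 + 1 = 2 ^ k by omega, pc, if_neg (lt_irrefl _), Nat.sub_self, pc_zero]
  norm_num

lemma sum_pc : ∀ k, 2 * ∑ s ∈ range (2 ^ k), pc k s = k * 2 ^ k := by
  intro k
  induction k with
  | zero => simp [pc]
  | succ k ih =>
    rw [show 2 ^ (k + 1) = 2 ^ k + 2 ^ k by ring, Finset.sum_range_add]
    have h1 : ∑ s ∈ range (2 ^ k), pc (k + 1) s = ∑ s ∈ range (2 ^ k), pc k s := by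
      refine Finset.sum_congr rfl (fun s hs => ?_)
      rw [pc, if_pos (Finset.mem_range.1 hs)]
    have h2 : ∑ s ∈ range (2 ^ k), pc (k + 1) (2 ^ k + s) = ∑ s ∈ range (2 ^ k), (pc k s + 1) := by
      refine Finset.sum_congr rfl (fun s _ => ?_)
      rw [pc, if_neg (by omega), Nat.add_sub_cancel_left]
    rw [h1, h2, Finset.sum_add_distrib]
    simp only [Finset.sum_const, Finset.card_range, smul_eq_mul, mul_one]
    nlinarith

lemma sum_pc_Ico {k : ℕ} (hk : 1 ≤ k) : 2 * (∑ s ∈ Finset.Ico 2 (2 ^ k), pc k s) + 2 = k * 2 ^ k := by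
  have h2 : 2 ≤ 2 ^ k := by
    calc 2 = 2 ^ 1 := by norm_num
      _ ≤ 2 ^ k := Nat.pow_le_pow_right (by norm_num) hk
  have h1 := sum_pc k
  rw [Finset.range_eq_Ico, ← Finset.sum_Ico_consecutive _ (by omega : 0 ≤ 2) h2] at h1
  have h3 : ∑ s ∈ Finset.Ico 0 2, pc k s = 1 := by
    have h4 : pc k 1 = 1 := by
      clear h1 h2
      induction k, hk using Nat.le_induction with
      | base => decide
      | succ k hk ih =>
        have : (1 : ℕ) < 2 ^ k := by
          have : 2 ^ 1 ≤ 2 ^ k := Nat.pow_le_pow_right (by norm_num) hk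
          omega
        rw [pc, if_pos this]; exact ih
    rw [← Finset.range_eq_Ico, Finset.sum_range_succ, Finset.sum_range_one, pc_zero, h4]
  rw [h3] at h1
  omega

/-- The base system exists, with ratio at least `2^(k 2^(k-1) - 2^(k+1))`. -/
theorem exists_base (k : ℕ) (hk : 2 ≤ k) :
    ∃ S : Base (BA k) (BI k), 2 ^ (k * 2 ^ k) ≤ (4 ^ (2 ^ k)) ^ 2 * S.Mv ^ 2 := by
  classical
  have hpow : 4 ≤ 2 ^ k := by
    calc 4 = 2 ^ 2 := by norm_num
      _ ≤ 2 ^ k := Nat.pow_le_pow_right (by norm_num) hk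
  -- linear map
  let L : (BA k → ℝ) →ₗ[ℝ] (Option (BI k) → ℝ) :=
    { toFun := fun κ o => match o with
        | none => ∑ x, κ x
        | some i => bsum (bsk k) κ i
      map_add' := by
        intro κ κ'
        funext o
        cases o with
        | none => simp [Finset.sum_add_distrib]
        | some i =>
          simp only [bsum, Pi.add_apply]
          rw [← Finset.sum_add_distrib]
          refine Finset.sum_congr rfl (fun x _ => ?_)
          split_ifs <;> simp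
      map_smul' := by
        intro c κ
        funext o
        cases o with
        | none =>
          simp only [Pi.smul_apply, smul_eq_mul, RingHom.id_apply]
          rw [Finset.mul_sum]
        | some i =>
          simp only [bsum, Pi.smul_apply, smul_eq_mul, RingHom.id_apply, Finset.mul_sum]
          refine Finset.sum_congr rfl (fun x _ => ?_)
          split_ifs <;> simp }
  have hker : L.ker ≠ ⊥ := by
    apply LinearMap.ker_ne_bot_of_finrank_lt
    rw [Module.finrank_fintype_fun_eq_card, Module.finrank_fintype_fun_eq_card, Fintype.card_option,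
      card_BA, card_BI]
    omega
  obtain ⟨κ₀, hκ₀, hκ₀ne⟩ := (Submodule.ne_bot_iff _).1 hker
  have hL : ∀ κ : BA k → ℝ, κ ∈ L.ker ↔ (∑ x, κ x = 0 ∧ ∀ i, bsum (bsk k) κ i = 0) := by
    intro κ
    rw [LinearMap.mem_ker]
    constructor
    · intro h
      exact ⟨congrFun h none, fun i => congrFun h (some i)⟩
    · rintro ⟨h1, h2⟩
      funext o
      cases o with
      | none => exact h1
      | some i => exact h2 i
  -- vanishing criterion
  have hvan : ∀ κ ∈ L.ker, ew k 1 (fun β => κ (Sum.inl β)) = 0 → κ = 0 := by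
    intro κ hκ h1
    obtain ⟨ha, hb⟩ := (hL κ).1 hκ
    obtain ⟨hS, hf, ht⟩ := decode k κ ha hb
    have h0 := sol_zero hS h1
    have hW := ew_injective k _ h0
    funext x
    rcases x with β | ⟨j, a, s⟩
    · exact hW β
    · have hj : j.1 < 2 ^ k := Finset.mem_range.1 (Finset.mem_filter.1 j.2).1
      cases s
      · rw [hf, h0 _ hj]; simp
      · rw [ht, h0 _ hj]; simp
  have he1 : ew k 1 (fun β => κ₀ (Sum.inl β)) ≠ 0 := fun h => hκ₀ne (hvan κ₀ hκ₀ h)
  have hew_smul : ∀ (c : ℝ) (i : ℕ) (u : W k → ℝ), ew k i (fun β => c * u β) = c * ew k i u := by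
    intro c i u; unfold ew; rw [Finset.mul_sum]; exact Finset.sum_congr rfl (fun _ _ => by ring)
  let c0 : BA k → ℝ := fun x => (2 / ew k 1 (fun β => κ₀ (Sum.inl β))) * κ₀ x
  have hc0 : c0 ∈ L.ker := by
    have : c0 = (2 / ew k 1 (fun β => κ₀ (Sum.inl β))) • κ₀ := rfl
    rw [this]; exact Submodule.smul_mem _ _ hκ₀
  have hc01 : ew k 1 (fun β => c0 (Sum.inl β)) = 2 := by
    show ew k 1 (fun β => (2 / ew k 1 (fun β => κ₀ (Sum.inl β))) * κ₀ (Sum.inl β)) = 2
    rw [hew_smul]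
    field_simp
  obtain ⟨hca, hcb⟩ := (hL c0).1 hc0
  obtain ⟨hS, hf, ht⟩ := decode k c0 hca hcb
  have h1nn : 0 ≤ ew k 1 (fun β => c0 (Sum.inl β)) := by rw [hc01]; norm_num
  let i1 : ↥(Iv k) := ⟨1, one_mem_Iv (by omega)⟩
  let im : ↥(Iv k) := ⟨2 ^ k - 1, max_mem_Iv (by omega)⟩
  have hgp := growth_prod hS h1nn (2 ^ k - 1) (by omega) (by omega)
  rw [show 2 ^ k - 1 + 1 = 2 ^ k by omega, hc01] at hgp
  have hg := growth hS h1nn (2 ^ k - 1) (by omega) (by omega)
  have hg1 := (hg.2.2 (by omega)).1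
  have hMgt : 1 < ew k (2 ^ k - 1) (fun β => c0 (Sum.inl β)) / 2 := by
    -- previous coefficient is at least 2
    have hprev : 2 ≤ ew k (2 ^ k - 1 - 1) (fun β => c0 (Sum.inl β)) := by
      have h3 : ∀ i, 1 ≤ i → i < 2 ^ k → 2 ≤ ew k i (fun β => c0 (Sum.inl β)) := by
        intro i hi
        induction i, hi using Nat.le_induction with
        | base => intro _; rw [hc01]
        | succ i hi ih =>
          intro hlt
          have h4 := ((growth hS h1nn (i + 1) (by omega) hlt).2.2 (by omega)).1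
          rw [Nat.add_sub_cancel] at h4
          have h5 := ih (by omega)
          linarith
      exact h3 _ (by omega) (by omega)
    linarith
  refine ⟨{ bs := bsk k, c0 := c0,
            p := fun a => Sum.inr (im, a, true)
            n := fun a => Sum.inr (im, a, false)
            q := fun a => Sum.inr (i1, a, true)
            r := fun a => Sum.inr (i1, a, false)
            Mv := ew k (2 ^ k - 1) (fun β => c0 (Sum.inl β)) / 2
            hsum := hca
            hbs := hcb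
            huniq := ?_
            hp := fun a => ht im a
            hn := fun a => hf im a
            hq := fun a => ?_
            hr := fun a => ?_
            hpi := by simp
            hni := by simp
            hqi := by simp
            hri := by simp
            hM := hMgt }, ?_⟩
  · intro κ h1 h2
    have hκ : κ ∈ L.ker := (hL κ).2 ⟨h1, h2⟩
    refine ⟨ew k 1 (fun β => κ (Sum.inl β)) / 2, fun x => ?_⟩
    have hd : κ - (ew k 1 (fun β => κ (Sum.inl β)) / 2) • c0 ∈ L.ker :=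
      Submodule.sub_mem _ hκ (Submodule.smul_mem _ _ hc0)
    have hd1 : ew k 1 (fun β => (κ - (ew k 1 (fun β => κ (Sum.inl β)) / 2) • c0) (Sum.inl β)) = 0 := by
      have : (fun β : W k => (κ - (ew k 1 (fun β => κ (Sum.inl β)) / 2) • c0) (Sum.inl β)) =
        fun β => (fun β => κ (Sum.inl β)) β - (fun β => (ew k 1 (fun β => κ (Sum.inl β)) / 2) * c0 (Sum.inl β)) β := by
        funext β; simp
      rw [this, ew_sub, hew_smul, hc01]; ring
    have := congrFun (hvan _ hd hd1) x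
    simp only [Pi.sub_apply, Pi.smul_apply, smul_eq_mul, Pi.zero_apply] at this
    linarith
  · rw [ht i1 a]; simp only [i1]; rw [hc01]; norm_num
  · rw [hf i1 a]; simp only [i1]; rw [hc01]; norm_num
  · -- size
    simp only
    set E := ew k (2 ^ k - 1) (fun β => c0 (Sum.inl β)) with hE
    have hs := sum_pc_Ico (k := k) (by omega)
    set T := ∑ s ∈ Finset.Ico 2 (2 ^ k), pc k s with hT
    have h5 : (2:ℝ) ^ T ≤ 4 ^ (2 ^ k - 1 - 1) * (E / 2) := by linarith
    have h6 : ((2:ℝ) ^ T) ^ 2 ≤ (4 ^ (2 ^ k - 1 - 1) * (E / 2)) ^ 2 := by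
      apply pow_le_pow_left₀ (by positivity) h5
    have h7 : (2:ℝ) ^ (k * 2 ^ k) = 4 * ((2:ℝ) ^ T) ^ 2 := by
      rw [← hs, pow_add, pow_mul]
      norm_num
      rw [← pow_mul, mul_comm T 2, pow_mul]; norm_num; ring
    have h8 : (4:ℝ) ^ (2 ^ k) = 16 * 4 ^ (2 ^ k - 1 - 1) := by
      have : 2 ^ k = (2 ^ k - 1 - 1) + 2 := by omega
      conv_lhs => rw [this, pow_add]
      norm_num
      ring
    rw [h7, h8]
    have h9 : (0:ℝ) ≤ (4 ^ (2 ^ k - 1 - 1) * (E / 2)) ^ 2 := by positivity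
    calc 4 * ((2:ℝ) ^ T) ^ 2 ≤ 4 * (4 ^ (2 ^ k - 1 - 1) * (E / 2)) ^ 2 := by linarith
      _ ≤ 256 * (4 ^ (2 ^ k - 1 - 1) * (E / 2)) ^ 2 := by linarith
      _ = (16 * 4 ^ (2 ^ k - 1 - 1)) ^ 2 * (E / 2) ^ 2 := by ring

end Pool.Agent.Helper42.Asum
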