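import Mathlib

/-!
Definitions for MP_96963f_co (worst-case asummability order certifying weightedness).
-/

namespace Pool.Agent.Helper42.Asum

/-- `f` is a switching function on `n` variables: a monotone Boolean function. -/
def IsSwitching {n : ℕ} (f : (Fin n → Bool) → Bool) : Prop :=
  ∀ x y : Fin n → Bool, (∀ i, x i = true → y i = true) → f x = true → f y = true

/-- `f` is a weighted threshold function: there are real weights `w` and a real quota `q` such that
`f x = 1` iff the total weight of the coordinates equal to `1` is at least `q`. -/
def IsWeighted {n : ℕ} (f : (Fin n → Bool) → Bool) : Prop :=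
  ∃ (w : Fin n → ℝ) (q : ℝ), ∀ x, f x = true ↔ q ≤ ∑ i, if x i = true then w i else 0

/-- `f` is `k`-summable: there are `k` true vectors and `k` false vectors (repetitions allowed)
with the same sum in `ℤ^n`. -/
def KSummable {n : ℕ} (f : (Fin n → Bool) → Bool) (k : ℕ) : Prop :=
  ∃ x y : Fin k → Fin n → Bool, (∀ i, f (x i) = true) ∧ (∀ i, f (y i) = false) ∧
    ∀ j, (∑ i, if x i j = true then (1 : ℤ) else 0) = ∑ i, if y i j = true then (1 : ℤ) else 0

/-- `f` is `m`-asummable: it is not `k`-summable for any `k ∈ {1, …, m}`. -/
def Asummable {n : ℕ} (f : (Fin n → Bool) → Bool) (m : ℕ) : Prop :=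
  ∀ k, 1 ≤ k → k ≤ m → ¬ KSummable f k

/-- `m` certifies weightedness on `n` variables: every `m`-asummable switching function on
`n` variables is weighted threshold. -/
def Certifies (n m : ℕ) : Prop :=
  ∀ f : (Fin n → Bool) → Bool, IsSwitching f → Asummable f m → IsWeighted f

/-- `M n` is the least `m` such that every `m`-asummable switching function on `n` variables is
weighted threshold. -/
noncomputable def M (n : ℕ) : ℕ := sInf {m | Certifies n m}

end Pool.Agent.Helper42.Asum
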