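import Mathlib
import Pool.Agent.Helper42.Asum.Defs
import Pool.Agent.Helper42.Asum.BaseSys

/-!
Combinatorial lower bound.
-/

namespace Pool.Agent.Helper42.Asum

open Finset

/-- transfer from an arbitrary finite index type to `Fin n` -/
theorem transfer {J : Type} [Fintype J] {n : ℕ} (hn : Fintype.card J ≤ n) (K : ℕ)
    (f : (J → Bool) → Bool) (hf : GMono f) (hw : ¬ GWeighted f)
    (hk : ∀ k, 1 ≤ k → GSummable f k → K ≤ k) (m : ℕ) (hm : Certifies n m) : K ≤ m := by
  classical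
  obtain ⟨e⟩ : Nonempty (J ↪ Fin n) := by
    apply Function.Embedding.nonempty_of_card_le
    simpa using hn
  let f' : (Fin n → Bool) → Bool := fun x => f (fun j => x (e j))
  by_contra hlt
  push Not at hlt
  have h1 : IsSwitching f' := by
    intro x y hxy
    exact hf _ _ (fun j => hxy (e j))
  have h2 : Asummable f' m := by
    rintro k hk1 hkm ⟨x, y, hx, hy, hxy⟩
    have h3 : GSummable f k := ⟨fun i j => x i (e j), fun i j => y i (e j), hx, hy, fun j => hxy (e j)⟩
    have := hk k hk1 h3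
    omega
  obtain ⟨w, q, hwq⟩ := hm f' h1 h2
  apply hw
  refine ⟨fun j => w (e j), q, fun x => ?_⟩
  -- extend x by false
  let x' : Fin n → Bool := fun i => if h : ∃ j, e j = i then x h.choose else false
  have hx' : ∀ j, x' (e j) = x j := by
    intro j
    have hex : ∃ j', e j' = e j := ⟨j, rfl⟩
    simp only [x', dif_pos hex]
    congr 1
    exact e.injective hex.choose_spec
  have h4 := hwq x'
  have h5 : f' x' = f x := by
    simp only [f']; congr 1; funext j; exact hx' j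
  rw [h5] at h4
  rw [h4]
  have h6 : ∑ i, (if x' i = true then w i else 0) = ∑ j, if x j = true then w (e j) else 0 := by
    have h7 : ∑ i, (if x' i = true then w i else 0) =
        ∑ i ∈ Finset.univ.map e, (if x' i = true then w i else 0) := by
      symm
      apply Finset.sum_subset (Finset.subset_univ _)
      intro i _ hi
      have : ¬ ∃ j, e j = i := by
        rintro ⟨j, rfl⟩
        exact hi (Finset.mem_map_of_mem e (Finset.mem_univ j))
      simp [x', this]
    rw [h7, Finset.sum_map]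
    refine Finset.sum_congr rfl (fun j _ => ?_)
    rw [hx' j]
  rw [h6]

/-- number of indices with few binary ones -/
def cnt (c k : ℕ) : ℕ := ((range (2 ^ k)).filter (fun i => pc k i ≤ c)).card

lemma pc_add (k s : ℕ) : pc (k + 1) (2 ^ k + s) = pc k s + 1 := by
  rw [pc, if_neg (by omega), Nat.add_sub_cancel_left]

lemma cnt_succ (c k : ℕ) : cnt (c + 1) (k + 1) = cnt (c + 1) k + cnt c k := by
  unfold cnt
  rw [show 2 ^ (k + 1) = 2 ^ k + 2 ^ k by ring]
  simp only [Finset.card_filter]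
  rw [Finset.sum_range_add]
  congr 1
  · refine Finset.sum_congr rfl (fun s hs => ?_)
    rw [pc, if_pos (Finset.mem_range.1 hs)]
  · refine Finset.sum_congr rfl (fun s _ => ?_)
    rw [pc_add]
    simp

lemma cnt_zero_succ (k : ℕ) : cnt 0 (k + 1) = cnt 0 k := by
  unfold cnt
  rw [show 2 ^ (k + 1) = 2 ^ k + 2 ^ k by ring]
  simp only [Finset.card_filter]
  rw [Finset.sum_range_add]
  have h1 : ∑ s ∈ range (2 ^ k), (if pc (k + 1) (2 ^ k + s) ≤ 0 then 1 else 0) = 0 := by
    apply Finset.sum_eq_zero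
    intro s _
    rw [pc_add]
    simp
  rw [h1, add_zero]
  refine Finset.sum_congr rfl (fun s hs => ?_)
  rw [pc, if_pos (Finset.mem_range.1 hs)]

lemma cnt_zero (k : ℕ) : cnt 0 k = 1 := by
  induction k with
  | zero => rfl
  | succ k ih => rw [cnt_zero_succ, ih]

lemma cnt_one (k : ℕ) : cnt 1 k = k + 1 := by
  induction k with
  | zero => rfl
  | succ k ih => rw [cnt_succ, ih, cnt_zero]

lemma cnt_two (k : ℕ) : cnt 2 k ≤ (k + 1) ^ 2 := by
  induction k with
  | zero => exact le_of_eq rfl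
  | succ k ih => rw [cnt_succ, cnt_one]; nlinarith

lemma card_Iv (k : ℕ) : (Iv k).card ≤ (k + 2) ^ 2 := by
  have h1 : (Iv k).card ≤ cnt 2 (k + 1) := by
    unfold Iv cnt
    apply Finset.card_le_card_of_injOn (fun i => i + 1)
    · intro i hi
      simp only [Finset.coe_filter, Finset.mem_range] at hi ⊢
      obtain ⟨h1, h2, h3⟩ := hi
      refine ⟨?_, h3⟩
      rw [pow_succ]; omega
    · intro a _ b _ h
      simpa using h
  exact le_trans h1 (cnt_two (k + 1))

lemma card_Coord {B I : Type*} [Fintype B] [Fintype I] (G g : ℕ) :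
    Fintype.card (Coord B I G g) = (G + 2) * Fintype.card I +
      ((G + 2) + (g * (2 * Fintype.card I) + (Fintype.card B + G * 4))) := by
  simp only [Coord, Fintype.card_sum, Fintype.card_prod, Fintype.card_fin, Fintype.card_bool]

/-- Main combinatorial lower bound. -/
theorem lower_comb (k G g n : ℕ) (hk : 2 ≤ k) (hg : G + 2 ≤ 2 ^ g)
    (hn : (G + 2 * g + 3) * (2 ^ k + 4 * (k + 2) ^ 2 + 4) ≤ n) (K : ℕ)
    (hK : ((K : ℝ) ^ 2) * ((16 : ℝ) ^ (2 ^ k)) ^ (G + 1) ≤ (2 ^ (k * 2 ^ k)) ^ (G + 1))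
    (m : ℕ) (hm : Certifies n m) : K ≤ m := by
  obtain ⟨S, hS⟩ := exists_base k hk
  have hMv : 0 < S.Mv := by linarith [S.hM]
  have hKM : (K : ℝ) ≤ S.Mv ^ (G + 1) := by
    have h1 : (2 ^ (k * 2 ^ k) : ℝ) ^ (G + 1) ≤ ((4 ^ (2 ^ k)) ^ 2 * S.Mv ^ 2) ^ (G + 1) :=
      pow_le_pow_left₀ (by positivity) hS _
    have h2 : ((4 ^ (2 ^ k)) ^ 2 * S.Mv ^ 2) ^ (G + 1) =
        ((16 : ℝ) ^ (2 ^ k)) ^ (G + 1) * (S.Mv ^ (G + 1)) ^ 2 := by
      rw [mul_pow]
      congr 1
      · congr 1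
        rw [← pow_mul, mul_comm, pow_mul]; norm_num
      · ring
    have h3 : ((K : ℝ) ^ 2) * ((16 : ℝ) ^ (2 ^ k)) ^ (G + 1) ≤
        (S.Mv ^ (G + 1)) ^ 2 * ((16 : ℝ) ^ (2 ^ k)) ^ (G + 1) := by
      calc _ ≤ _ := hK
        _ ≤ _ := h1
        _ = _ := by rw [h2]; ring
    have h4 : (K : ℝ) ^ 2 ≤ (S.Mv ^ (G + 1)) ^ 2 := le_of_mul_le_mul_right h3 (by positivity)
    exact le_of_sq_le_sq h4 (by positivity) 
  obtain ⟨f, hf1, hf2, hf3⟩ := array_main S G g hg K hKM
  refine transfer ?_ K f hf1 hf2 hf3 m hm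
  refine le_trans ?_ hn
  have hI := card_Iv k
  have hp : 2 ≤ 2 ^ k := by
    calc 2 = 2 ^ 1 := by norm_num
      _ ≤ 2 ^ k := Nat.pow_le_pow_right (by norm_num) (by omega)
  rw [card_Coord, card_BI, card_BA]
  obtain ⟨c, hc⟩ : ∃ c, 2 ^ k = c + 2 := ⟨2 ^ k - 2, by omega⟩
  rw [hc, Nat.add_sub_cancel]
  set v := (Iv k).card
  set u := (k + 2) ^ 2
  have h1 : c + 4 * v ≤ c + 4 * u := by omega
  nlinarith [Nat.mul_le_mul_left (G + 2) h1, Nat.mul_le_mul_left (2 * g) h1, Nat.zero_le (G * u), Nat.zero_le (G * c)]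

end Pool.Agent.Helper42.Asum
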