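import Mathlib
import Pool.Agent.Helper42.Asum.Lower

/-!
Asymptotic lower bound.
-/

namespace Pool.Agent.Helper42.Asum

open Finset Filter Asymptotics

theorem lower_pow (k G g n : ℕ) (hk : 4 ≤ k) (hg : G + 2 ≤ 2 ^ g)
    (hn : (G + 2 * g + 3) * (2 ^ k + 4 * (k + 2) ^ 2 + 4) ≤ n)
    (m : ℕ) (hm : Certifies n m) : 2 ^ ((k - 4) * 2 ^ (k - 1) * (G + 1)) ≤ m := by
  refine lower_comb k G g n (by omega) hg hn _ ?_ m hm
  obtain ⟨j, rfl⟩ : ∃ j, k = j + 4 := ⟨k - 4, by omega⟩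
  rw [Nat.add_sub_cancel, show j + 4 - 1 = j + 3 by omega]
  push_cast
  apply le_of_eq
  rw [show (16:ℝ) = 2 ^ 4 by norm_num, ← pow_mul, ← pow_mul, ← pow_mul, ← pow_mul, ← pow_add]
  congr 1
  ring

lemma cubic_aux (x : ℝ) (hx : 28 ≤ x) : 4 * x ^ 2 + 16 * x + 20 ≤ x ^ 3 := by
  have h1 : 28 * x ^ 2 ≤ x * x ^ 2 := mul_le_mul_of_nonneg_right hx (sq_nonneg x)
  have h2 : 28 * x ≤ x * x := mul_le_mul_of_nonneg_right hx (by linarith)
  nlinarith

theorem lower_asymp : ∀ᶠ n : ℕ in atTop, ∀ m, Certifies n m →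
    (1/2 : ℝ) * n * Real.logb 2 n - 9 * n * Real.logb 2 (Real.logb 2 n) ≤ Real.logb 2 m := by
  -- tendsto facts
  have hx_tend : Tendsto (fun n : ℕ => Real.logb 2 (n : ℝ)) atTop atTop :=
    (Real.tendsto_logb_atTop (by norm_num)).comp tendsto_natCast_atTop_atTop
  have hlog2 : 0 < Real.log 2 := Real.log_pos (by norm_num)
  -- x^5 ≤ n
  have h5 : ∀ᶠ n : ℕ in atTop, (Real.logb 2 (n : ℝ)) ^ 5 ≤ n := by
    have h1 := (Real.isLittleO_pow_log_id_atTop (n := 5)).def (show (0:ℝ) < (Real.log 2) ^ 5 by positivity)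
    have h2 := tendsto_natCast_atTop_atTop.eventually h1
    filter_upwards [h2, eventually_ge_atTop 1] with n hn hn1
    have hn1' : (1:ℝ) ≤ n := by exact_mod_cast hn1
    simp only [id, Real.norm_eq_abs] at hn
    rw [abs_of_nonneg (by positivity), abs_of_nonneg (by positivity)] at hn
    unfold Real.logb
    rw [div_pow, div_le_iff₀ (by positivity)]
    linarith
  -- y ≤ x / 8
  have hy8 : ∀ᶠ n : ℕ in atTop, Real.logb 2 (Real.logb 2 (n : ℝ)) ≤ Real.logb 2 (n : ℝ) / 8 := by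
    have h1 := Real.isLittleO_log_id_atTop.def (show (0:ℝ) < Real.log 2 / 8 by positivity)
    have h2 := hx_tend.eventually h1
    filter_upwards [h2, hx_tend.eventually_ge_atTop 1] with n hn hn1
    simp only [id, Real.norm_eq_abs] at hn
    have h3 : 0 ≤ Real.log (Real.logb 2 (n:ℝ)) := Real.log_nonneg hn1
    rw [abs_of_nonneg h3, abs_of_nonneg (by linarith)] at hn
    rw [Real.logb, div_le_iff₀ hlog2]
    linarith
  filter_upwards [h5, hy8, hx_tend.eventually_ge_atTop 28, eventually_ge_atTop 1] with n h5 hy8 hx28 hn1 m hm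
  set x := Real.logb 2 (n : ℝ) with hx
  set y := Real.logb 2 x with hy
  have hnpos : (0:ℝ) < n := by exact_mod_cast hn1
  have hxpos : 0 < x := by linarith
  have hy1 : 1 ≤ y := by
    rw [hy, Real.le_logb_iff_rpow_le (by norm_num) hxpos]
    norm_num; linarith
  have h2x : (2:ℝ) ^ x = n := Real.rpow_logb (by norm_num) (by norm_num) hnpos
  have h2y : (2:ℝ) ^ y = x := Real.rpow_logb (by norm_num) (by norm_num) hxpos
  set k := ⌊x - y⌋₊ with hk
  set g := ⌈y⌉₊ + 1 with hg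
  have hk1 : (k : ℝ) ≤ x - y := Nat.floor_le (by linarith)
  have hk2 : x - y < k + 1 := Nat.lt_floor_add_one _
  have hk9 : 9 ≤ k := by
    have : (8:ℝ) < k := by linarith
    have : 8 < k := by exact_mod_cast this
    omega
  have hgR : (g : ℝ) ≤ y + 2 := by
    have := Nat.ceil_lt_add_one (show (0:ℝ) ≤ y by linarith)
    rw [hg]; push_cast; linarith
  have hgR2 : y + 1 ≤ g := by
    have := Nat.le_ceil y
    rw [hg]; push_cast; linarith
  have h2k1 : (2:ℝ) ^ k ≤ n / x := by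
    have : (n:ℝ) / x = 2 ^ (x - y) := by rw [Real.rpow_sub (by norm_num), h2x, h2y]
    rw [this, ← Real.rpow_natCast]
    exact Real.rpow_le_rpow_of_exponent_le (by norm_num) hk1
  have h2k2 : (n:ℝ) / x < 2 * 2 ^ k := by
    have : (n:ℝ) / x = 2 ^ (x - y) := by rw [Real.rpow_sub (by norm_num), h2x, h2y]
    rw [this]
    calc (2:ℝ) ^ (x - y) < 2 ^ ((k:ℝ) + 1) := Real.rpow_lt_rpow_of_exponent_lt (by norm_num) hk2
      _ = 2 * 2 ^ k := by rw [Real.rpow_add (by norm_num), Real.rpow_natCast, Real.rpow_one]; ring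
  have hkey : 4 * (k + 2) ^ 2 + 4 ≤ 2 ^ k := by
    clear_value k
    clear hk hk1 hk2 h2k1 h2k2
    induction k, hk9 using Nat.le_induction with
    | base => norm_num
    | succ k hk ih =>
      have : 2 ^ (k + 1) = 2 * 2 ^ k := by ring
      rw [this]; nlinarith
  set b := 2 ^ k + 4 * (k + 2) ^ 2 + 4 with hb
  have hbpos : 0 < b := by positivity
  have hbR : (b:ℝ) = 2 ^ k + (4 * (k + 2) ^ 2 + 4) := by rw [hb]; push_cast; ring
  have hb2 : (b:ℝ) ≤ 2 * 2 ^ k := by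
    rw [hbR]
    have : ((4 * (k + 2) ^ 2 + 4 : ℕ) : ℝ) ≤ ((2 ^ k : ℕ) : ℝ) := by exact_mod_cast hkey
    push_cast at this
    linarith
  have hbRpos : (0:ℝ) < b := by exact_mod_cast hbpos
  have h2kpos : (0:ℝ) < 2 ^ k := by positivity
  -- n / b ≥ 2 g + 3
  have hdiv : 2 * g + 3 ≤ n / b := by
    rw [Nat.le_div_iff_mul_le hbpos]
    have : ((2 * g + 3 : ℕ) : ℝ) * b ≤ n := by
      push_cast
      have h1 : (2 * (g:ℝ) + 3) ≤ x / 2 := by linarith
      calc (2 * (g:ℝ) + 3) * b ≤ (x / 2) * b := by gcongr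
        _ ≤ (x / 2) * (2 * (n / x)) := by gcongr; linarith
        _ = n := by field_simp
    exact_mod_cast this
  obtain ⟨G, hG⟩ : ∃ G, n / b = G + (2 * g + 3) := ⟨n / b - (2 * g + 3), by omega⟩
  have hGn : (G + 2 * g + 3) * (2 ^ k + 4 * (k + 2) ^ 2 + 4) ≤ n := by
    have := Nat.div_mul_le_self n b
    rw [hG] at this
    rw [← hb, add_assoc]
    exact this
  have hdivR : ((n / b : ℕ) : ℝ) ≤ n / b := Nat.cast_div_le
  have hdivR2 : (n:ℝ) / b < ((n / b : ℕ) : ℝ) + 1 := by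
    rw [div_lt_iff₀ hbRpos]
    have := Nat.lt_div_mul_add hbpos (a := n)
    have h3 : n < (n / b + 1) * b := by
      rw [add_mul, one_mul]; exact this
    exact_mod_cast h3
  have hg2 : G + 2 ≤ 2 ^ g := by
    have h1 : ((G + 2 : ℕ) : ℝ) ≤ ((2 ^ g : ℕ) : ℝ) := by
      have h2 : ((G + 2 : ℕ) : ℝ) ≤ ((n / b : ℕ) : ℝ) := by
        rw [hG]; push_cast; linarith [show (0:ℝ) ≤ g by positivity]
      have h3 : (n:ℝ) / b ≤ n / 2 ^ k := by
        apply div_le_div_of_nonneg_left hnpos.le h2kpos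
        rw [hbR]; linarith [show (0:ℝ) ≤ 4 * ((k:ℝ) + 2) ^ 2 + 4 by positivity]
      have h4 : (n:ℝ) / 2 ^ k ≤ 2 * x := by
        rw [div_le_iff₀ h2kpos]
        rw [div_lt_iff₀ hxpos] at h2k2
        linarith
      have h5 : 2 * x ≤ (2:ℝ) ^ (g:ℝ) := by
        calc 2 * x = (2:ℝ) ^ (y + 1) := by rw [Real.rpow_add (by norm_num), h2y, Real.rpow_one]; ring
          _ ≤ (2:ℝ) ^ (g:ℝ) := Real.rpow_le_rpow_of_exponent_le (by norm_num) hgR2
      rw [Real.rpow_natCast] at h5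
      push_cast at h2 ⊢
      linarith
    exact_mod_cast h1
  have hmain := lower_pow k G g n (by omega) hg2 hGn m hm
  -- take logs
  have hlog : (((k - 4) * 2 ^ (k - 1) * (G + 1) : ℕ) : ℝ) ≤ Real.logb 2 m := by
    have h1 : ((2 ^ ((k - 4) * 2 ^ (k - 1) * (G + 1)) : ℕ) : ℝ) ≤ m := by exact_mod_cast hmain
    have hmpos : (0:ℝ) < m := lt_of_lt_of_le (by positivity) h1
    rw [Real.le_logb_iff_rpow_le (by norm_num) hmpos, Real.rpow_natCast]
    push_cast at h1 ⊢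
    exact h1
  refine le_trans ?_ hlog
  obtain ⟨j, hj⟩ : ∃ j, k = j + 4 := ⟨k - 4, by omega⟩
  have hcast : (((k - 4) * 2 ^ (k - 1) * (G + 1) : ℕ) : ℝ) = ((k:ℝ) - 4) / 2 * ((G + 1) * 2 ^ k) := by
    rw [hj, Nat.add_sub_cancel, show j + 4 - 1 = j + 3 by omega]
    push_cast
    rw [show j + 4 = (j + 3) + 1 by ring, pow_succ]
    ring
  rw [hcast]
  -- lower bound for P = (G+1) 2^k
  have hP1 : (n:ℝ) / b - (2 * g + 3) ≤ (G:ℝ) + 1 := by
    have : ((n / b : ℕ) : ℝ) = (G:ℝ) + (2 * g + 3) := by rw [hG]; push_cast; ring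
    linarith
  set A := 8 * x * ((x + 2) ^ 2 + 1) with hA
  have hP : (n:ℝ) - A - (2 * y + 7) * (n / x) ≤ ((G:ℝ) + 1) * 2 ^ k := by
    have h1 : ((n:ℝ) / b - (2 * g + 3)) * 2 ^ k ≤ ((G:ℝ) + 1) * 2 ^ k := by gcongr
    refine le_trans ?_ h1
    have h2 : (n:ℝ) - n * ((b - 2 ^ k) / 2 ^ k) ≤ n / b * 2 ^ k := by
      have h3 : 1 - ((b:ℝ) - 2 ^ k) / 2 ^ k ≤ 2 ^ k / b := by
        rw [le_div_iff₀ hbRpos, sub_mul, one_mul, div_mul_eq_mul_div, sub_le_iff_le_add,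
          ← sub_le_iff_le_add', le_div_iff₀ h2kpos]
        nlinarith [sq_nonneg ((b:ℝ) - 2 ^ k)]
      calc (n:ℝ) - n * ((b - 2 ^ k) / 2 ^ k) = n * (1 - ((b:ℝ) - 2 ^ k) / 2 ^ k) := by ring
        _ ≤ n * (2 ^ k / b) := by gcongr
        _ = n / b * 2 ^ k := by ring
    have h4 : (n:ℝ) * ((b - 2 ^ k) / 2 ^ k) ≤ A := by
      have h5 : (b:ℝ) - 2 ^ k ≤ 4 * ((x + 2) ^ 2 + 1) := by
        rw [hbR]
        have hkx : (k:ℝ) ≤ x := by linarith
        have : ((k:ℝ) + 2) ^ 2 ≤ (x + 2) ^ 2 := by gcongr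
        linarith
      have h6 : (n:ℝ) / 2 ^ k ≤ 2 * x := by
        rw [div_le_iff₀ h2kpos]
        rw [div_lt_iff₀ hxpos] at h2k2
        linarith
      calc (n:ℝ) * ((b - 2 ^ k) / 2 ^ k) = (n / 2 ^ k) * (b - 2 ^ k) := by ring
        _ ≤ (2 * x) * (4 * ((x + 2) ^ 2 + 1)) := by
            apply mul_le_mul h6 h5
            · rw [hbR]; linarith [show (0:ℝ) ≤ 4 * ((k:ℝ) + 2) ^ 2 + 4 by positivity]
            · positivity
        _ = A := by rw [hA]; ring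
    have h7 : (2 * (g:ℝ) + 3) * 2 ^ k ≤ (2 * y + 7) * (n / x) := by
      apply mul_le_mul _ h2k1 h2kpos.le (by linarith)
      linarith
    rw [sub_mul]
    linarith
  have hPnn : 0 ≤ ((G:ℝ) + 1) * 2 ^ k := by positivity
  have hk4 : x - y - 5 ≤ (k:ℝ) - 4 := by linarith
  have hxy5 : 0 ≤ x - y - 5 := by linarith
  have step1 : (x - y - 5) / 2 * (((G:ℝ) + 1) * 2 ^ k) ≤ ((k:ℝ) - 4) / 2 * (((G:ℝ) + 1) * 2 ^ k) := by
    gcongr
  refine le_trans ?_ step1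
  have step2 : (x - y - 5) / 2 * ((n:ℝ) - A - (2 * y + 7) * (n / x)) ≤ (x - y - 5) / 2 * (((G:ℝ) + 1) * 2 ^ k) := by
    gcongr
  refine le_trans ?_ step2
  -- final real inequality
  have hAnn : 0 ≤ A := by positivity
  have h10 : (x - y - 5) / 2 * (A + (2 * y + 7) * (n / x)) ≤ x / 2 * (A + (2 * y + 7) * (n / x)) := by
    have : 0 ≤ A + (2 * y + 7) * (n / x) := by positivity
    gcongr
    linarith
  have h11 : x / 2 * (A + (2 * y + 7) * (n / x)) = x * A / 2 + (2 * y + 7) * n / 2 := by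
    field_simp
  have h12 : x * A / 2 ≤ n := by
    have : x * A / 2 = 4 * x ^ 4 + 16 * x ^ 3 + 20 * x ^ 2 := by rw [hA]; ring
    rw [this]
    refine le_trans ?_ h5
    have h13 : 4 * x ^ 4 + 16 * x ^ 3 + 20 * x ^ 2 = x ^ 2 * (4 * x ^ 2 + 16 * x + 20) := by ring
    have h14 : x ^ 5 = x ^ 2 * x ^ 3 := by ring
    rw [h13, h14]
    exact mul_le_mul_of_nonneg_left (cubic_aux x hx28) (sq_nonneg x)
  have h15 : (n:ℝ) ≤ n * y := le_mul_of_one_le_right hnpos.le hy1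
  have h16 : (x - y - 5) / 2 * ((n:ℝ) - A - (2 * y + 7) * (n / x)) =
      (x - y - 5) / 2 * n - (x - y - 5) / 2 * (A + (2 * y + 7) * (n / x)) := by ring
  rw [h16]
  have h17 : (x - y - 5) / 2 * n = 1 / 2 * n * x - n * y / 2 - 5 / 2 * n := by ring
  rw [h17]
  have h18 : (2 * y + 7) * n / 2 = n * y + 7 / 2 * n := by ring
  rw [h11, h18] at h10
  have h19 : 1 / 2 * (n:ℝ) * x - 9 * n * y = 1 / 2 * n * x - 9 * (n * y) := by ring
  rw [h19]
  linarith

end Pool.Agent.Helper42.Asum
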