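import Mathlib
import Pool.Agent.Helper42.Asum.Defs
import Pool.Agent.Helper42.Asum.Hadamard

/-!
Upper bound.
-/

namespace Pool.Agent.Helper42.Asum

open Finset

variable {n : ℕ}

/-- sign of a vector under `f` -/
noncomputable def ep (f : (Fin n → Bool) → Bool) (x : Fin n → Bool) : ℝ := if f x = true then 1 else -1

lemma ep_sq (f : (Fin n → Bool) → Bool) (x : Fin n → Bool) : ep f x * ep f x = 1 := by
  unfold ep; split_ifs <;> norm_num

/-- certificates -/
def Cert (_f : (Fin n → Bool) → Bool) (κ : (Fin n → Bool) → ℝ) : Prop :=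
  (∑ x, κ x = 0) ∧ (∀ j, (∑ x : Fin n → Bool, if x j = true then κ x else 0) = 0)

theorem gordan (f : (Fin n → Bool) → Bool) (h : ¬ IsWeighted f) :
    ∃ κ : (Fin n → Bool) → ℝ, κ ≠ 0 ∧ (∀ x, 0 ≤ ep f x * κ x) ∧ Cert f κ := by
  classical
  let r : (Fin n → Bool) → (Fin n → ℝ) := fun x j => if x j = true then 1 else 0
  let z : (Fin n → Bool) → ((Fin n → ℝ) × ℝ) := fun x => ep f x • (r x, (1 : ℝ))
  let s : Finset ((Fin n → ℝ) × ℝ) := Finset.univ.image z
  have hinj : Function.Injective z := by
    intro x y hxy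
    have h2 : ep f x = ep f y := by
      have := congrArg Prod.snd hxy
      simpa [z] using this
    have h1 : ep f x • r x = ep f y • r y := by
      have := congrArg Prod.fst hxy
      simpa [z] using this
    rw [h2] at h1
    have hne : ep f y ≠ 0 := by
      intro h0; have := ep_sq f y; rw [h0] at this; norm_num at this
    have h3 : r x = r y := by
      have := congrArg (fun v => (ep f y)⁻¹ • v) h1
      simpa [smul_smul, inv_mul_cancel₀ hne] using this
    funext j
    have h4 := congrFun h3 j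
    simp only [r] at h4
    cases hx : x j <;> cases hy : y j <;> simp_all
  by_cases h0 : (0 : (Fin n → ℝ) × ℝ) ∈ convexHull ℝ (s : Set ((Fin n → ℝ) × ℝ))
  · rw [Finset.mem_convexHull'] at h0
    obtain ⟨w, hw0, hw1, hw2⟩ := h0
    have hsum : ∀ (F : ((Fin n → ℝ) × ℝ) → ((Fin n → ℝ) × ℝ)), ∑ y ∈ s, F y = ∑ x, F (z x) := by
      intro F
      simp only [s]
      rw [Finset.sum_image (fun x _ y _ hxy => hinj hxy)]
    have hw1' : ∑ x, w (z x) = 1 := by
      rw [← hw1]; simp only [s]
      rw [Finset.sum_image (fun x _ y _ hxy => hinj hxy)]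
    rw [hsum] at hw2
    refine ⟨fun x => ep f x * w (z x), ?_, ?_, ?_, ?_⟩
    · intro hz
      have : ∀ x, w (z x) = 0 := by
        intro x
        have h1 := congrFun hz x
        simp only [Pi.zero_apply] at h1
        have h2 : ep f x * (ep f x * w (z x)) = 0 := by rw [h1, mul_zero]
        rw [← mul_assoc, ep_sq, one_mul] at h2
        exact h2
      simp [this] at hw1'
    · intro x
      rw [← mul_assoc, ep_sq, one_mul]
      exact hw0 _ (Finset.mem_image_of_mem z (Finset.mem_univ x))
    · have := congrArg Prod.snd hw2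
      simp only [Prod.snd_sum, z, Prod.smul_snd, smul_eq_mul, mul_one, Prod.snd_zero] at this
      rw [← this]
      exact Finset.sum_congr rfl (fun x _ => mul_comm (ep f x) _)
    · intro j
      have := congrFun (congrArg Prod.fst hw2) j
      simp only [Prod.fst_sum, z, Prod.smul_fst, Finset.sum_apply, Pi.smul_apply, smul_eq_mul,
        Prod.fst_zero, Pi.zero_apply, r] at this
      refine Eq.trans (Finset.sum_congr rfl (fun x _ => ?_)) this
      simp only [z, r]
      split_ifs <;> ring
  · exfalso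
    apply h
    have hconv : Convex ℝ (convexHull ℝ (s : Set ((Fin n → ℝ) × ℝ))) := convex_convexHull ℝ _
    have hclosed : IsClosed (convexHull ℝ (s : Set ((Fin n → ℝ) × ℝ))) := (Finset.finite_toSet s).isClosed_convexHull ℝ
    obtain ⟨φ, u, hu0, hu⟩ := geometric_hahn_banach_point_closed hconv hclosed h0
    rw [map_zero] at hu0
    have hφ : ∀ x, 0 < ep f x * φ (r x, 1) := by
      intro x
      have h1 : z x ∈ convexHull ℝ (s : Set ((Fin n → ℝ) × ℝ)) :=
        subset_convexHull ℝ _ (by exact_mod_cast Finset.mem_image_of_mem z (Finset.mem_univ x))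
      have h2 := hu _ h1
      simp only [z, map_smul, smul_eq_mul] at h2
      linarith
    have hlin : ∀ x : Fin n → Bool, φ (r x, 1) = (∑ i, if x i = true then φ (Pi.single i 1, 0) else 0) + φ (0, 1) := by
      intro x
      have h1 : (r x, (1:ℝ)) = (∑ i, if x i = true then ((Pi.single i (1 : ℝ) : Fin n → ℝ), (0 : ℝ)) else 0) +
          ((0 : Fin n → ℝ), (1:ℝ)) := by
        ext j
        · simp only [Prod.fst_add, Prod.fst_sum, Finset.sum_apply, add_zero, Pi.add_apply, Pi.zero_apply]
          rw [Finset.sum_eq_single j]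
          · by_cases hx : x j = true <;> simp [r, hx]
          · intro i _ hij
            by_cases hx : x i = true <;> simp [hx, Pi.single_apply, Ne.symm hij]
          · simp
        · simp only [Prod.snd_add, Prod.snd_sum]
          rw [Finset.sum_eq_zero]
          · simp
          · intro i _
            by_cases hx : x i = true <;> simp [hx]
      rw [h1, map_add, map_sum]
      congr 1
      refine Finset.sum_congr rfl (fun i _ => ?_)
      by_cases hx : x i = true <;> simp [hx]
    refine ⟨fun i => φ (Pi.single i 1, 0), -φ (0, 1), fun x => ?_⟩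
    have h1 := hφ x
    rw [hlin x] at h1
    constructor
    · intro hfx
      rw [ep, if_pos hfx] at h1
      linarith
    · intro hq
      by_contra hfx
      rw [ep, if_neg hfx] at h1
      linarith

/-- support of a certificate -/
noncomputable def supp (κ : (Fin n → Bool) → ℝ) : Finset (Fin n → Bool) := by
  classical exact Finset.univ.filter (fun x => κ x ≠ 0)

lemma mem_supp (κ : (Fin n → Bool) → ℝ) (x : Fin n → Bool) : x ∈ supp κ ↔ κ x ≠ 0 := by
  classical
  simp [supp]

lemma Cert.sub_smul {f : (Fin n → Bool) → Bool} {κ κ' : (Fin n → Bool) → ℝ} (h : Cert f κ) (h' : Cert f κ')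
    (τ : ℝ) : Cert f (fun x => κ x - τ * κ' x) := by
  refine ⟨?_, ?_⟩
  · rw [Finset.sum_sub_distrib, ← Finset.mul_sum, h.1, h'.1]; ring
  · intro j
    have : ∀ x : Fin n → Bool, (if x j = true then κ x - τ * κ' x else 0) =
        (if x j = true then κ x else 0) - τ * (if x j = true then κ' x else 0) := by
      intro x; split_ifs <;> ring
    rw [Finset.sum_congr rfl (fun x _ => this x), Finset.sum_sub_distrib, ← Finset.mul_sum, h.2 j, h'.2 j]
    ring

/-- minimal certificates are unique on their support -/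
theorem minimal_cert (f : (Fin n → Bool) → Bool) (h : ¬ IsWeighted f) :
    ∃ κ : (Fin n → Bool) → ℝ, κ ≠ 0 ∧ (∀ x, 0 ≤ ep f x * κ x) ∧ Cert f κ ∧
      ∀ κ' : (Fin n → Bool) → ℝ, Cert f κ' → (∀ x, κ x = 0 → κ' x = 0) → ∃ τ, ∀ x, κ' x = τ * κ x := by
  classical
  -- choose minimal support
  let P : ℕ → Prop := fun m => ∃ κ : (Fin n → Bool) → ℝ, κ ≠ 0 ∧ (∀ x, 0 ≤ ep f x * κ x) ∧ Cert f κ ∧ (supp κ).card = m
  have hP : ∃ m, P m := by
    obtain ⟨κ, h1, h2, h3⟩ := gordan f h
    exact ⟨_, κ, h1, h2, h3, rfl⟩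
  obtain ⟨κ, h1, h2, h3, h4⟩ := Nat.find_spec hP
  refine ⟨κ, h1, h2, h3, ?_⟩
  -- key reduction: κ' with some positive sign
  have key : ∀ κ' : (Fin n → Bool) → ℝ, Cert f κ' → (∀ x, κ x = 0 → κ' x = 0) →
      (∃ x, 0 < ep f x * κ' x) → ∃ τ, ∀ x, κ' x = τ * κ x := by
    intro κ' hc' hs' hpos
    -- minimal ratio
    let S : Finset (Fin n → Bool) := Finset.univ.filter (fun x => 0 < ep f x * κ' x)
    have hSne : S.Nonempty := by
      obtain ⟨x, hx⟩ := hpos
      exact ⟨x, by simp [S, hx]⟩
    obtain ⟨x₀, hx₀S, hx₀⟩ := Finset.exists_min_image S (fun x => (ep f x * κ x) / (ep f x * κ' x)) hSne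
    have hx₀pos : 0 < ep f x₀ * κ' x₀ := (Finset.mem_filter.1 hx₀S).2
    set τ := (ep f x₀ * κ x₀) / (ep f x₀ * κ' x₀) with hτ
    have hκx₀ : κ x₀ ≠ 0 := by
      intro h0
      rw [hs' x₀ h0, mul_zero] at hx₀pos
      exact lt_irrefl _ hx₀pos
    have hτpos : 0 < τ := by
      have h5 : 0 < ep f x₀ * κ x₀ := by
        rcases (h2 x₀).lt_or_eq with h6 | h6
        · exact h6
        · exfalso
          have h7 : ep f x₀ * (ep f x₀ * κ x₀) = 0 := by rw [← h6, mul_zero]
          rw [← mul_assoc, ep_sq, one_mul] at h7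
          exact hκx₀ h7
      exact div_pos h5 hx₀pos
    let κ'' : (Fin n → Bool) → ℝ := fun x => κ x - τ * κ' x
    have hc'' : Cert f κ'' := h3.sub_smul hc' τ
    have hnn : ∀ x, 0 ≤ ep f x * κ'' x := by
      intro x
      have he : ep f x * κ'' x = ep f x * κ x - τ * (ep f x * κ' x) := by simp only [κ'']; ring
      rw [he]
      by_cases hx : 0 < ep f x * κ' x
      · have h5 := hx₀ x (by simp [S, hx])
        rw [le_div_iff₀ hx] at h5
        linarith
      · push Not at hx
        have h5 := h2 x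
        nlinarith
    have hz : κ'' x₀ = 0 := by
      have h5 : ep f x₀ * κ'' x₀ = 0 := by
        have he : ep f x₀ * κ'' x₀ = ep f x₀ * κ x₀ - τ * (ep f x₀ * κ' x₀) := by simp only [κ'']; ring
        rw [he, hτ, div_mul_cancel₀ _ hx₀pos.ne']
        ring
      have h6 : ep f x₀ * (ep f x₀ * κ'' x₀) = 0 := by rw [h5, mul_zero]
      rw [← mul_assoc, ep_sq, one_mul] at h6
      exact h6
    have hsub : supp κ'' ⊂ supp κ := by
      refine (Finset.ssubset_iff_of_subset ?_).2 ⟨x₀, (mem_supp _ _).2 hκx₀, fun h => (mem_supp _ _).1 h hz⟩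
      intro x hx
      rw [mem_supp] at hx ⊢
      intro h0
      apply hx
      simp only [κ'', h0, hs' x h0]; ring
    have hκ''0 : κ'' = 0 := by
      by_contra hne
      have hlt : (supp κ'').card < Nat.find hP := by
        rw [← h4]; exact Finset.card_lt_card hsub
      exact Nat.find_min hP hlt ⟨κ'', hne, hnn, hc'', rfl⟩
    refine ⟨τ⁻¹, fun x => ?_⟩
    have h5 := congrFun hκ''0 x
    simp only [κ'', Pi.zero_apply] at h5
    field_simp
    linarith
  intro κ' hc' hs'
  by_cases hpos : ∃ x, 0 < ep f x * κ' x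
  · exact key κ' hc' hs' hpos
  · push Not at hpos
    by_cases hz : ∀ x, κ' x = 0
    · exact ⟨0, fun x => by rw [hz x, zero_mul]⟩
    · push Not at hz
      obtain ⟨x, hx⟩ := hz
      have hneg : Cert f (fun x => (0:ℝ) - 1 * κ' x) := by
        have hzero : Cert f (fun _ => (0:ℝ)) := ⟨by simp, fun j => by simp⟩
        exact hzero.sub_smul hc' 1
      obtain ⟨τ, hτ⟩ := key (fun x => (0:ℝ) - 1 * κ' x) hneg (fun x h0 => by simp [hs' x h0]) (by
        refine ⟨x, ?_⟩
        have h5 : ep f x * κ' x ≠ 0 := by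
          intro h0
          have h6 : ep f x * (ep f x * κ' x) = 0 := by rw [h0, mul_zero]
          rw [← mul_assoc, ep_sq, one_mul] at h6
          exact hx h6
        have h6 := lt_of_le_of_ne (hpos x) h5
        have h7 : ep f x * ((0:ℝ) - 1 * κ' x) = -(ep f x * κ' x) := by ring
        rw [h7]; linarith)
      refine ⟨-τ, fun x => ?_⟩
      have := hτ x
      linarith

end Pool.Agent.Helper42.Asum
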