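import Mathlib
import Pool.Agent.Helper42.Asum.Upper

/-!
Upper bound, second part: integral certificates.
-/

namespace Pool.Agent.Helper42.Asum

open Finset

variable {n : ℕ}

/-- listing elements with multiplicities -/
lemma mult_list {P : Type*} [Fintype P] (m : P → ℕ) (k : ℕ) (hk : ∑ p, m p = k) :
    ∃ x : Fin k → P, (∀ i, m (x i) ≠ 0) ∧ ∀ F : P → ℤ, ∑ i, F (x i) = ∑ p, (m p : ℤ) * F p := by
  classical
  have hcard : Fintype.card (Σ p, Fin (m p)) = k := by
    rw [Fintype.card_sigma]; simpa using hk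
  let e : Fin k ≃ (Σ p, Fin (m p)) := (Fintype.equivFinOfCardEq hcard).symm
  refine ⟨fun i => (e i).1, ?_, ?_⟩
  · intro i
    show m (e i).1 ≠ 0
    have := (e i).2.isLt
    omega
  · intro F
    rw [Equiv.sum_comp e (fun t => F t.1), Fintype.sum_sigma]
    refine Finset.sum_congr rfl (fun p _ => ?_)
    simp

/-- the sign family -/
def Dz (f : (Fin n → Bool) → Bool) (c : Option (Option (Fin n))) (x : Fin n → Bool) : ℤ :=
  match c with
  | none => if f x = true then 1 else -1
  | some none => 1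
  | some (some j) => if x j = true then 1 else -1

lemma Dz_odd (f : (Fin n → Bool) → Bool) (c : Option (Option (Fin n))) (x : Fin n → Bool) :
    Odd (Dz f c x) := by
  rcases c with _ | _ | j <;> simp only [Dz]
  · split_ifs <;> decide
  · decide
  · split_ifs <;> decide

lemma Dz_abs (f : (Fin n → Bool) → Bool) (c : Option (Option (Fin n))) (x : Fin n → Bool) :
    |((Dz f c x : ℤ) : ℝ)| ≤ 1 := by
  rcases c with _ | _ | j <;> simp only [Dz]
  · split_ifs <;> simp
  · simp
  · split_ifs <;> simp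

lemma cert_Dz (f : (Fin n → Bool) → Bool) (κ : (Fin n → Bool) → ℝ) (h : Cert f κ)
    (c : Option (Option (Fin n))) (hc : c ≠ none) : ∑ x, (Dz f c x : ℝ) * κ x = 0 := by
  rcases c with _ | _ | j
  · exact absurd rfl hc
  · simp only [Dz, Int.cast_one, one_mul]; exact h.1
  · have h1 : ∀ x : Fin n → Bool, (Dz f (some (some j)) x : ℝ) * κ x = 2 * (if x j = true then κ x else 0) - κ x := by
      intro x
      simp only [Dz]
      split_ifs <;> push_cast <;> ring
    rw [Finset.sum_congr rfl (fun x _ => h1 x), Finset.sum_sub_distrib, ← Finset.mul_sum, h.2 j, h.1]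
    ring

lemma cert_of_Dz (f : (Fin n → Bool) → Bool) (κ : (Fin n → Bool) → ℝ)
    (h : ∀ c, c ≠ none → ∑ x, (Dz f c x : ℝ) * κ x = 0) : Cert f κ := by
  have h0 : ∑ x, κ x = 0 := by
    have := h (some none) (by simp)
    simpa [Dz] using this
  refine ⟨h0, fun j => ?_⟩
  have h2 := h (some (some j)) (by simp)
  have h1 : ∀ x : Fin n → Bool, (Dz f (some (some j)) x : ℝ) * κ x = 2 * (if x j = true then κ x else 0) - κ x := by
    intro x
    simp only [Dz]
    split_ifs <;> push_cast <;> ring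
  rw [Finset.sum_congr rfl (fun x _ => h1 x), Finset.sum_sub_distrib, ← Finset.mul_sum, h0] at h2
  linarith

lemma pow_self_mono (m : ℕ) (hm : 1 ≤ m) : 4 * m ^ m ≤ (m + 1) ^ (m + 1) := by
  have h1 : 2 * m ^ m ≤ (m + 1) ^ m := by
    have h2 : ∀ j, 1 ≤ j → m ^ j + j * m ^ (j - 1) ≤ (m + 1) ^ j := by
      intro j hj
      induction j, hj using Nat.le_induction with
      | base => simp
      | succ j hj ih =>
        obtain ⟨i, rfl⟩ : ∃ i, j = i + 1 := ⟨j - 1, by omega⟩
        rw [Nat.add_sub_cancel] at ih ⊢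
        calc m ^ (i + 1 + 1) + (i + 1 + 1) * m ^ (i + 1) ≤ (m ^ (i + 1) + (i + 1) * m ^ i) * (m + 1) := by
              have : (m ^ (i + 1) + (i + 1) * m ^ i) * (m + 1) =
                m ^ (i + 1 + 1) + (i + 1 + 1) * m ^ (i + 1) + (i + 1) * m ^ i := by ring
              rw [this]; omega
          _ ≤ (m + 1) ^ (i + 1) * (m + 1) := Nat.mul_le_mul_right _ ih
          _ = (m + 1) ^ (i + 1 + 1) := by ring
    have h3 := h2 m hm
    have h4 : m * m ^ (m - 1) = m ^ m := by
      conv_rhs => rw [show m = (m - 1) + 1 by omega]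
      rw [pow_succ, show m - 1 + 1 = m by omega]; ring
    omega
  calc 4 * m ^ m = 2 * (2 * m ^ m) := by ring
    _ ≤ 2 * (m + 1) ^ m := Nat.mul_le_mul_left 2 h1
    _ ≤ (m + 1) * (m + 1) ^ m := Nat.mul_le_mul_right _ (by omega)
    _ = (m + 1) ^ (m + 1) := by ring

lemma pow_self_mono' (m N : ℕ) (hm : 1 ≤ m) (h : m ≤ N) : 4 ^ (N - m) * m ^ m ≤ N ^ N := by
  induction N, h using Nat.le_induction with
  | base => simp
  | succ N h ih =>
    rw [Nat.succ_sub h, pow_succ]
    calc 4 ^ (N - m) * 4 * m ^ m = 4 * (4 ^ (N - m) * m ^ m) := by ring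
      _ ≤ 4 * N ^ N := Nat.mul_le_mul_left 4 ih
      _ ≤ (N + 1) ^ (N + 1) := pow_self_mono N (by omega)

theorem upper (f : (Fin n → Bool) → Bool) (h : ¬ IsWeighted f) :
    ∃ k, 1 ≤ k ∧ 4 ^ (n + 1) * k ^ 2 ≤ (n + 2) ^ (n + 2) ∧ KSummable f k := by
  classical
  obtain ⟨κ, hne, hsgn, hcert, huniq⟩ := minimal_cert f h
  let S := {x : Fin n → Bool // κ x ≠ 0}
  -- sums over the support
  have hsumS : ∀ (F : (Fin n → Bool) → ℝ), (∀ x, κ x = 0 → F x = 0) → ∑ x, F x = ∑ x : S, F x.1 := by
    intro F hF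
    rw [← Finset.sum_subtype (Finset.univ.filter (fun x => κ x ≠ 0)) (by simp) F, Finset.sum_filter]
    refine Finset.sum_congr rfl (fun x _ => ?_)
    by_cases hx : κ x = 0
    · simp [hx, hF x hx]
    · simp [hx]
  -- the sign family restricted to the support
  let D : Option (Option (Fin n)) → (S → ℝ) := fun c x => (Dz f c x.1 : ℝ)
  have hspan : Submodule.span ℝ (Set.range D) = ⊤ := by
    by_contra hcon
    obtain ⟨φ, hφne, hφ⟩ := Submodule.exists_le_ker_of_lt_top _ (lt_top_iff_ne_top.2 hcon)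
    apply hφne
    -- coordinates of φ
    let v : S → ℝ := fun x => φ (Pi.single x 1)
    have hφv : ∀ u : S → ℝ, φ u = ∑ x, v x * u x := by
      intro u
      have h1 : u = ∑ x, u x • (Pi.single x (1 : ℝ) : S → ℝ) := by
        funext y
        rw [Finset.sum_apply, Finset.sum_eq_single y]
        · simp
        · intro b _ hb
          simp [Ne.symm hb]
        · intro hb; exact absurd (Finset.mem_univ y) hb
      conv_lhs => rw [h1]
      rw [map_sum]
      refine Finset.sum_congr rfl (fun x _ => ?_)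
      rw [map_smul, smul_eq_mul, mul_comm]
    -- extend v by zero
    let κ' : (Fin n → Bool) → ℝ := fun x => if hx : κ x ≠ 0 then v ⟨x, hx⟩ else 0
    have hκ'0 : ∀ x, κ x = 0 → κ' x = 0 := by
      intro x hx; simp [κ', hx]
    have hκ'S : ∀ x : S, κ' x.1 = v x := by
      intro x; simp only [κ']; rw [dif_pos x.2]
    have hD : ∀ c, ∑ x, (Dz f c x : ℝ) * κ' x = 0 := by
      intro c
      rw [hsumS _ (fun x hx => by rw [hκ'0 x hx, mul_zero])]
      have h1 : φ (D c) = 0 := hφ (Submodule.subset_span ⟨c, rfl⟩)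
      rw [hφv] at h1
      refine Eq.trans (Finset.sum_congr rfl (fun x _ => ?_)) h1
      rw [hκ'S, mul_comm]
    have hcert' : Cert f κ' := cert_of_Dz f κ' (fun c _ => hD c)
    obtain ⟨τ, hτ⟩ := huniq κ' hcert' hκ'0
    have hτ0 : τ = 0 := by
      by_contra hτne
      have h1 := hD none
      have h2 : ∀ x, (Dz f none x : ℝ) = ep f x := by
        intro x; simp only [Dz, ep]; split_ifs <;> simp
      have h3 : ∑ x, ep f x * κ x = 0 := by
        have h4 : ∑ x, (Dz f none x : ℝ) * κ' x = τ * ∑ x, ep f x * κ x := by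
          rw [Finset.mul_sum]
          refine Finset.sum_congr rfl (fun x _ => ?_)
          rw [h2, hτ]; ring
        rw [h4] at h1
        exact (mul_eq_zero.1 h1).resolve_left hτne
      have h4 := (Finset.sum_eq_zero_iff_of_nonneg (fun x _ => hsgn x)).1 h3
      apply hne
      funext x
      have h5 := h4 x (Finset.mem_univ x)
      have h6 : ep f x * (ep f x * κ x) = 0 := by rw [h5, mul_zero]
      rw [← mul_assoc, ep_sq, one_mul] at h6
      exact h6
    apply LinearMap.ext
    intro u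
    rw [hφv, LinearMap.zero_apply]
    apply Finset.sum_eq_zero
    intro x _
    rw [← hκ'S, hτ, hτ0, zero_mul, zero_mul]
  obtain ⟨ι, a, ha, hasp, hali⟩ := exists_linearIndependent' ℝ D
  rw [hspan] at hasp
  have : Finite ι := Finite.of_injective a ha
  let bas : Module.Basis ι ℝ (S → ℝ) := Module.Basis.mk hali (by rw [hasp])
  let e : S ≃ ι := (Pi.basisFun ℝ S).indexEquiv bas
  -- integer matrix
  let Az : Matrix S S ℤ := fun y x => Dz f (a (e y)) x.1
  let A : Matrix S S ℝ := Az.map (fun z : ℤ => (z : ℝ))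
  have hArow : LinearIndependent ℝ A.row := by
    have h1 : LinearIndependent ℝ ((D ∘ a) ∘ e) := hali.comp e e.injective
    exact h1
  have hAunit : IsUnit A := Matrix.linearIndependent_rows_iff_isUnit.1 hArow
  have hdetA : A.det ≠ 0 := ((Matrix.isUnit_iff_isUnit_det A).1 hAunit).ne_zero
  have hdetcast : A.det = (Az.det : ℝ) := by
    exact (Int.cast_det Az).symm
  have hinj : Function.Injective (fun u : S → ℝ => A.mulVec u) :=
    Matrix.mulVec_injective_iff_isUnit.2 hAunit
  -- values on κ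
  let kS : S → ℝ := fun x => κ x.1
  have hmul : ∀ y, A.mulVec kS y = ∑ x, (Dz f (a (e y)) x : ℝ) * κ x := by
    intro y
    rw [hsumS _ (fun x hx => by rw [hx, mul_zero])]
    rfl
  have hkS : kS ≠ 0 := by
    intro h0
    apply hne
    funext x
    by_contra hx
    have := congrFun h0 ⟨x, hx⟩
    exact hx this
  obtain ⟨y₀, hy₀⟩ : ∃ y₀, a (e y₀) = none := by
    by_contra hcon
    push Not at hcon
    apply hkS
    apply hinj
    funext y
    show A.mulVec kS y = A.mulVec 0 y
    rw [hmul, Matrix.mulVec_zero, cert_Dz f κ hcert _ (hcon y)]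
    rfl
  have hy₀' : ∀ y, y ≠ y₀ → a (e y) ≠ none := by
    intro y hy h0
    apply hy
    apply e.injective
    apply ha
    rw [h0, hy₀]
  set σ : ℝ := ∑ x, (Dz f none x : ℝ) * κ x with hσ
  have hDep : ∀ x, (Dz f none x : ℝ) = ep f x := by
    intro x; simp only [Dz, ep]; split_ifs <;> simp
  have hAk : A.mulVec kS = σ • Pi.single y₀ 1 := by
    funext y
    rw [hmul]
    by_cases hy : y = y₀
    · subst hy
      rw [hy₀]; simp [hσ]
    · rw [cert_Dz f κ hcert _ (hy₀' y hy)]
      simp [hy]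
  have hσne : σ ≠ 0 := by
    intro h0
    apply hkS
    apply hinj
    show A.mulVec kS = A.mulVec 0
    rw [hAk, h0, zero_smul, Matrix.mulVec_zero]
  have hσpos : 0 < σ := by
    apply lt_of_le_of_ne _ (Ne.symm hσne)
    rw [hσ]
    apply Finset.sum_nonneg
    intro x _
    rw [hDep]; exact hsgn x
  -- Cramer
  let L : S → ℤ := Az.cramer (Pi.single y₀ 1)
  have hL : Az.mulVec L = Az.det • Pi.single y₀ 1 := Matrix.mulVec_cramer Az _
  have hLR : A.mulVec (fun x => (L x : ℝ)) = (Az.det : ℝ) • Pi.single y₀ 1 := by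
    funext y
    have h1 := congrFun hL y
    have h2 : A.mulVec (fun x => (L x : ℝ)) y = ((Az.mulVec L y : ℤ) : ℝ) := by
      simp only [Matrix.mulVec, dotProduct, Int.cast_sum, Int.cast_mul]
      rfl
    rw [h2, h1]
    by_cases hy : y = y₀
    · subst hy; simp
    · simp [hy]
  have hLκ : ∀ x : S, (L x : ℝ) = (Az.det / σ : ℝ) * κ x.1 := by
    have h1 : (fun x => (L x : ℝ)) = (Az.det / σ : ℝ) • kS := by
      apply hinj
      show A.mulVec (fun x => (L x : ℝ)) = A.mulVec ((Az.det / σ : ℝ) • kS)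
      rw [hLR, Matrix.mulVec_smul, hAk, smul_smul, div_mul_cancel₀ _ hσne]
    intro x
    exact congrFun h1 x
  set m := Fintype.card S with hm
  -- divisibility
  have hdvd : ∀ x, (2 : ℤ) ^ (m - 2) ∣ L x := by
    intro x
    have h1 : L x = (Az.updateCol x (Pi.single y₀ 1)).transpose.det := by
      rw [Matrix.det_transpose]; exact Matrix.cramer_apply Az _ x
    rw [h1]
    apply dvd_det_of_odd _ x
    intro i hi j
    rw [Matrix.transpose_apply, Matrix.updateCol_ne hi]
    exact Dz_odd _ _ _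
  choose ℓ hℓ using hdvd
  -- at least two atoms
  have hm2 : 2 ≤ m := by
    by_contra hlt
    have h1 : Fintype.card S ≤ 1 := by omega
    have hsub := Fintype.card_le_one_iff.1 h1
    obtain ⟨x₀, hx₀⟩ : ∃ x, κ x ≠ 0 := by
      by_contra hcon
      push Not at hcon
      exact hne (funext hcon)
    have h2 : ∑ x : S, κ x.1 = κ x₀ := by
      rw [Finset.sum_eq_single (⟨x₀, hx₀⟩ : S)]
      · intro b _ hb
        exact absurd (hsub b ⟨x₀, hx₀⟩) hb
      · intro hb; exact absurd (Finset.mem_univ _) hb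
    have h3 := hcert.1
    rw [hsumS κ (fun x hx => hx), h2] at h3
    exact hx₀ h3
  -- the integral certificate, with a positive multiple of κ
  have hdetZ : (Az.det : ℝ) ≠ 0 := by rw [← hdetcast]; exact hdetA
  let sd : ℤ := if 0 < Az.det then 1 else -1
  have hsd : (sd : ℝ) * Az.det = |(Az.det : ℝ)| := by
    simp only [sd]
    split_ifs with h0
    · have : (0:ℝ) < Az.det := by exact_mod_cast h0
      rw [abs_of_pos this]; simp
    · have : (Az.det : ℝ) ≤ 0 := by
        have : Az.det ≤ 0 := not_lt.1 h0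
        exact_mod_cast this
      rw [abs_of_nonpos this]; simp
  let lam : (Fin n → Bool) → ℤ := fun x => if hx : κ x ≠ 0 then sd * ℓ ⟨x, hx⟩ else 0
  have hp2 : (0:ℝ) < 2 ^ (m - 2) := by positivity
  have hlam : ∀ x, (2:ℝ) ^ (m - 2) * (lam x : ℝ) = |(Az.det : ℝ)| / σ * κ x := by
    intro x
    by_cases hx : κ x = 0
    · simp [lam, hx]
    · have h1 : lam x = sd * ℓ ⟨x, hx⟩ := by simp only [lam]; rw [dif_pos hx]
      have h2 := hLκ ⟨x, hx⟩
      rw [hℓ ⟨x, hx⟩] at h2
      push_cast at h2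
      rw [h1, ← hsd]
      push_cast
      linear_combination (sd : ℝ) * h2
  have hlam' : ∀ x, (lam x : ℝ) = (|(Az.det : ℝ)| / σ / 2 ^ (m - 2)) * κ x := by
    intro x
    have := hlam x
    field_simp at this ⊢
    linarith
  set θ := |(Az.det : ℝ)| / σ / 2 ^ (m - 2) with hθ
  have hθpos : 0 < θ := div_pos (div_pos (abs_pos.2 hdetZ) hσpos) hp2
  clear_value θ
  have hlamT : ∀ x, f x = true → 0 ≤ lam x := by
    intro x hx
    have h1 := hsgn x
    rw [ep, if_pos hx, one_mul] at h1
    have h2 : (0:ℝ) ≤ lam x := by rw [hlam']; exact mul_nonneg hθpos.le h1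
    exact_mod_cast h2
  have hlamF : ∀ x, f x = false → lam x ≤ 0 := by
    intro x hx
    have h1 := hsgn x
    rw [ep, if_neg (by simp [hx])] at h1
    have h2 : (lam x : ℝ) ≤ 0 := by
      rw [hlam']
      have : κ x ≤ 0 := by linarith
      exact mul_nonpos_of_nonneg_of_nonpos hθpos.le this
    exact_mod_cast h2
  have hlamcert : Cert f (fun x => (lam x : ℝ)) := by
    refine ⟨?_, fun j => ?_⟩
    · simp only [hlam']; rw [← Finset.mul_sum, hcert.1, mul_zero]
    · have h1 : ∀ x : Fin n → Bool, (if x j = true then (lam x : ℝ) else 0) = θ * (if x j = true then κ x else 0) := by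
        intro x; rw [hlam']; split_ifs <;> ring
      rw [Finset.sum_congr rfl (fun x _ => h1 x), ← Finset.mul_sum, hcert.2 j, mul_zero]
  -- multiplicities
  let mT : (Fin n → Bool) → ℕ := fun x => if f x = true then (lam x).toNat else 0
  let mF : (Fin n → Bool) → ℕ := fun x => if f x = true then 0 else (-lam x).toNat
  have hmT : ∀ x, ((mT x : ℕ) : ℤ) - ((mF x : ℕ) : ℤ) = lam x := by
    intro x
    by_cases hx : f x = true
    · have := hlamT x hx
      simp [mT, mF, hx, this]
    · have hx' : f x = false := by simpa using hx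
      have := hlamF x hx'
      simp [mT, mF, hx', this]
  have hmTF : ∀ x, (((mT x : ℕ) : ℝ) + ((mF x : ℕ) : ℝ)) = ep f x * lam x := by
    intro x
    by_cases hx : f x = true
    · have h1 := hlamT x hx
      have h2 : ((mT x : ℕ) : ℤ) = lam x := by simp [mT, hx, h1]
      have h3 : mF x = 0 := by simp [mF, hx]
      rw [h3, ep, if_pos hx, ← h2]; push_cast; ring
    · have hx' : f x = false := by simpa using hx
      have h1 := hlamF x hx'
      have h2 : ((mF x : ℕ) : ℤ) = -lam x := by simp [mF, hx', h1]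
      have h3 : mT x = 0 := by simp [mT, hx']
      have h4 : ((mF x : ℕ) : ℝ) = -(lam x : ℝ) := by exact_mod_cast h2
      rw [h3, ep, if_neg hx, h4]; push_cast; ring
  set k := ∑ x, mT x with hk
  have hsum0 : ∑ x, lam x = 0 := by
    have := hlamcert.1
    simp only at this
    exact_mod_cast this
  have hkF : ∑ x, mF x = k := by
    have h1 : ∑ x, (((mT x : ℕ) : ℤ) - ((mF x : ℕ) : ℤ)) = 0 := by
      rw [Finset.sum_congr rfl (fun x _ => hmT x), hsum0]
    rw [Finset.sum_sub_distrib] at h1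
    have h2 : ((∑ x, mF x : ℕ) : ℤ) = ((∑ x, mT x : ℕ) : ℤ) := by push_cast; linarith
    exact_mod_cast h2
  obtain ⟨X, hX1, hX2⟩ := mult_list mT k rfl
  obtain ⟨Y, hY1, hY2⟩ := mult_list mF k hkF
  have hsumm : KSummable f k := by
    refine ⟨X, Y, ?_, ?_, ?_⟩
    · intro i
      have := hX1 i
      by_contra hcon
      exact this (by simp [mT, hcon])
    · intro i
      have := hY1 i
      by_contra hcon
      have hcon' : f (Y i) = true := by simpa using hcon
      exact this (by simp [mF, hcon'])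
    · intro j
      have h1 := hX2 (fun x => if x j = true then 1 else 0)
      have h2 := hY2 (fun x => if x j = true then 1 else 0)
      rw [h1, h2]
      have h3 : ∑ x : Fin n → Bool, (if x j = true then lam x else 0) = 0 := by
        have := hlamcert.2 j
        have h4 : ((∑ x : Fin n → Bool, (if x j = true then lam x else 0) : ℤ) : ℝ) = 0 := by
          push_cast; exact this
        exact_mod_cast h4
      have h5 : ∀ x : Fin n → Bool, (if x j = true then lam x else 0) =
          ((mT x : ℕ) : ℤ) * (if x j = true then 1 else 0) - ((mF x : ℕ) : ℤ) * (if x j = true then 1 else 0) := by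
        intro x; rw [← hmT x]; split_ifs <;> ring
      rw [Finset.sum_congr rfl (fun x _ => h5 x), Finset.sum_sub_distrib] at h3
      linarith
  have h2k : (2:ℝ) * k * 2 ^ (m - 2) = |(Az.det : ℝ)| := by
    have h1 : ((k : ℕ) : ℝ) + ((k : ℕ) : ℝ) = ∑ x, ep f x * lam x := by
      conv_lhs => rw [show ((k:ℕ):ℝ) + ((k:ℕ):ℝ) = ((∑ x, mT x : ℕ):ℝ) + ((∑ x, mF x : ℕ):ℝ) by rw [hkF]]
      push_cast
      rw [← Finset.sum_add_distrib]
      exact Finset.sum_congr rfl (fun x _ => hmTF x)
    have h2 : ∑ x, ep f x * (lam x : ℝ) = θ * σ := by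
      rw [hσ, Finset.mul_sum]
      refine Finset.sum_congr rfl (fun x _ => ?_)
      rw [hDep, hlam']; ring
    rw [h2] at h1
    have h3 : θ * σ * 2 ^ (m - 2) = |(Az.det : ℝ)| := by
      rw [hθ]; field_simp
    rw [← h3, ← h1]; ring
  have hk1 : 1 ≤ k := by
    rcases Nat.eq_zero_or_pos k with h0 | h0
    · exfalso
      rw [h0] at h2k
      simp only [Nat.cast_zero, mul_zero, zero_mul] at h2k
      exact hdetZ (abs_eq_zero.1 h2k.symm)
    · exact h0
  refine ⟨k, hk1, ?_, hsumm⟩
  have hhad := hadamard A (fun i j => Dz_abs _ _ _)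
  rw [hdetcast, ← hm] at hhad
  have h4 : (4:ℝ) ^ (m - 1) * (k:ℝ) ^ 2 ≤ (m:ℝ) ^ m := by
    refine le_trans (le_of_eq ?_) hhad
    rw [← sq_abs (Az.det : ℝ), ← h2k]
    obtain ⟨i, hi⟩ : ∃ i, m = i + 2 := ⟨m - 2, by omega⟩
    rw [hi, show i + 2 - 1 = i + 1 by omega, show i + 2 - 2 = i by omega]
    rw [show (4:ℝ) = 2 ^ 2 by norm_num, ← pow_mul]
    ring
  have h5 : 4 ^ (m - 1) * k ^ 2 ≤ m ^ m := by exact_mod_cast h4
  have hmn : m ≤ n + 2 := by
    have h6 : Fintype.card S ≤ Fintype.card (Option (Option (Fin n))) :=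
      Fintype.card_le_of_injective (fun y => a (e y)) (ha.comp e.injective)
    simpa using h6
  have h6 := pow_self_mono' m (n + 2) (by omega) hmn
  calc 4 ^ (n + 1) * k ^ 2 = 4 ^ (n + 2 - m) * (4 ^ (m - 1) * k ^ 2) := by
        rw [← mul_assoc, ← pow_add]
        congr 2
        omega
    _ ≤ 4 ^ (n + 2 - m) * m ^ m := Nat.mul_le_mul_left _ h5
    _ ≤ (n + 2) ^ (n + 2) := h6

end Pool.Agent.Helper42.Asum
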