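import Mathlib
import Pool.Agent.Helper42.Asum.Asymp
import Pool.Agent.Helper42.Asum.Upper2

/-!
Both bounds together.
-/

namespace Pool.Agent.Helper42.Asum

open Filter Topology

/-- `Certifies n m` holds for the explicit integer `⌊√((n+2)^(n+2) / 4^(n+1))⌋`. -/
theorem certifies_upper (n : ℕ) : Certifies n (Nat.sqrt ((n + 2) ^ (n + 2) / 4 ^ (n + 1))) := by
  intro f _ hf
  by_contra hw
  obtain ⟨k, hk1, hk2, hk3⟩ := upper f hw
  refine hf k hk1 ?_ hk3
  rw [Nat.le_sqrt, ← sq, Nat.le_div_iff_mul_le (by positivity)]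
  linarith

theorem certifies_M (n : ℕ) : Certifies n (M n) :=
  Nat.sInf_mem (s := {m | Certifies n m}) ⟨_, certifies_upper n⟩

theorem M_upper (n : ℕ) : 4 ^ (n + 1) * (M n) ^ 2 ≤ (n + 2) ^ (n + 2) := by
  have h1 : M n ≤ Nat.sqrt ((n + 2) ^ (n + 2) / 4 ^ (n + 1)) := Nat.sInf_le (certifies_upper n)
  rw [Nat.le_sqrt, ← sq, Nat.le_div_iff_mul_le (by positivity)] at h1
  linarith

theorem M_lower : ∀ᶠ n : ℕ in atTop,
    (1/2 : ℝ) * n * Real.logb 2 n - 9 * n * Real.logb 2 (Real.logb 2 n) ≤ Real.logb 2 (M n) := by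
  filter_upwards [lower_asymp] with n hn
  exact hn (M n) (certifies_M n)

theorem M_upper_log : ∀ᶠ n : ℕ in atTop,
    Real.logb 2 (M n) ≤ (1/2 : ℝ) * n * Real.logb 2 n - n + 9 * Real.logb 2 n := by
  filter_upwards [eventually_ge_atTop 4] with n hn
  have hnR : (4:ℝ) ≤ n := by exact_mod_cast hn
  have hlog2 : 0 < Real.log 2 := Real.log_pos (by norm_num)
  have hL2 : 2 ≤ Real.logb 2 (n:ℝ) := by
    rw [Real.le_logb_iff_rpow_le (by norm_num) (by linarith)]
    norm_num; exact hn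
  rcases Nat.eq_zero_or_pos (M n) with h0 | hpos
  · rw [h0]; simp only [Nat.cast_zero, Real.logb_zero]
    nlinarith
  · have h1 : (4:ℝ) ^ (n + 1) * (M n : ℝ) ^ 2 ≤ ((n:ℝ) + 2) ^ (n + 2) := by exact_mod_cast M_upper n
    have hMpos : (0:ℝ) < M n := by exact_mod_cast hpos
    have h2 := Real.logb_le_logb_of_le (b := 2) (by norm_num) (by positivity) h1
    rw [Real.logb_mul (by positivity) (by positivity), Real.logb_pow, Real.logb_pow, Real.logb_pow] at h2
    have h4 : Real.logb 2 4 = 2 := by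
      rw [show (4:ℝ) = 2 ^ (2:ℝ) by norm_num, Real.logb_rpow (by norm_num) (by norm_num)]
    rw [h4] at h2
    push_cast at h2
    -- log (n+2) ≤ log n + 2/(n log 2)
    have h5 : Real.logb 2 ((n:ℝ) + 2) ≤ Real.logb 2 n + 2 / (n * Real.log 2) := by
      have h6 : (n:ℝ) + 2 = n * (1 + 2 / n) := by field_simp
      have h7 : Real.log (1 + 2 / (n:ℝ)) ≤ 2 / n := by
        have := Real.log_le_sub_one_of_pos (show (0:ℝ) < 1 + 2 / n by positivity)
        linarith
      rw [h6, Real.logb_mul (by positivity) (by positivity)]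
      have h8 : Real.logb 2 (1 + 2 / (n:ℝ)) ≤ 2 / (n * Real.log 2) := by
        rw [Real.logb, div_le_iff₀ hlog2]
        refine le_trans h7 (le_of_eq ?_)
        field_simp
      linarith
    have h9 : (n:ℝ) * (2 / (n * Real.log 2)) = 2 / Real.log 2 := by field_simp
    have h10 : 2 / Real.log 2 ≤ 4 := by
      rw [div_le_iff₀ hlog2]
      have := Real.log_two_gt_d9
      linarith
    have h11 : 2 / ((n:ℝ) * Real.log 2) ≤ 1 := by
      have h12 : 2 / ((n:ℝ) * Real.log 2) = (2 / Real.log 2) / n := by field_simp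
      rw [h12, div_le_one (by linarith)]
      linarith
    have h13 : ((n:ℝ) + 2) * Real.logb 2 ((n:ℝ) + 2) ≤
        ((n:ℝ) + 2) * (Real.logb 2 n + 2 / (n * Real.log 2)) := by gcongr
    have h14 : ((n:ℝ) + 2) * (Real.logb 2 n + 2 / (n * Real.log 2)) =
        n * Real.logb 2 n + 2 * Real.logb 2 n + n * (2 / (n * Real.log 2)) + 2 * (2 / (n * Real.log 2)) := by ring
    rw [h14, h9] at h13
    linarith

end Pool.Agent.Helper42.Asum
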